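import Pool.Agent.Helper52.KP.AgrF

/-! K (3.5) and the agreement principle (33c sect. 0, LEAF 4(c)): functions of (A, label) which take few values given
(B, label) on an event of positive probability are functions of the maximal label; agreement of copies produces such
functions. True for every space. -/

namespace Pool.Agent.Helper40.EL

open Finset Filter Topology Pool.Agent.Helper69.RK Pool.Agent.Helper31.EC

noncomputable section

namespace FLab

variable {F : FSp} (l : FLab F)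

/-- adding a partition of the label space -/
def addW (W : Setoid l.T.Ω) : FLab F := ⟨l.T, l.p, l.hn, l.V ⊓ W⟩

theorem addW_leak_le (W : Setoid l.T.Ω) (x : FL F) :
    (l.addW W).leak x ≤ l.leak x + h (fc W : FL l.T) (l.v ⊔ l.p.map x) := by
  have h1 : (l.addW W).leak x = I (l.v ⊔ fc W) l.p.top (l.p.map x) := rfl
  rw [h1, I_chain]
  have h2 := I_le_h_left (fc W : FL l.T) l.p.top (l.v ⊔ l.p.map x)
  have h4 : l.leak x = I l.v l.p.top (l.p.map x) := rfl
  linarith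

theorem addW_info_ge (W : Setoid l.T.Ω) (x : FL F) :
    l.info + h (fc W : FL l.T) l.v ≤ (l.addW W).info + h (fc W : FL l.T) (l.v ⊔ l.p.map x) := by
  have h1 : (l.addW W).info = I (l.v ⊔ fc W) l.p.top ⊥ := rfl
  rw [h1, I_chain, sup_bot_eq, I_eq (fc W : FL l.T) l.p.top l.v]
  have h3 : h (fc W : FL l.T) (l.p.top ⊔ l.v) ≤ h (fc W : FL l.T) (l.v ⊔ l.p.map x) :=
    h_anti (sup_le le_sup_right ((l.p.map_le_top x).trans le_sup_left))
  have h4 : l.info = I l.v l.p.top ⊥ := rfl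
  linarith

end FLab

theorem nul_n {S T : Sp} {f : ℕ → ℝ} (hn : ∀ k, (T.F k).n = (S.F k).n) : Nul T f ↔ Nul S f := by
  unfold Nul
  have e : (fun k => f k / (T.F k).n) = fun k => f k / (S.F k).n := by
    funext k
    rw [hn k]
  rw [e]

namespace Lab

variable {S : Sp} {l : Lab S} {A B : Part S}

/-- adding partitions of the label spaces -/
def addW (l : Lab S) (W : ∀ k, Setoid (l k).T.Ω) : Lab S := fun k => (l k).addW (W k)

/-- functions of `(A, l)` and of `(B, l)` are functions of a maximal label `l` -/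
theorem IsMax.fun_small (hl : l.IsMax A B) (hA : A.Bd) (W : ∀ k, Setoid (l k).T.Ω)
    (h1 : Nul S (fun k => h (fc (W k) : FL (l k).T) ((l k).v ⊔ (l k).p.map (A k))))
    (h2 : Nul S (fun k => h (fc (W k) : FL (l k).T) ((l k).v ⊔ (l k).p.map (B k)))) :
    Nul S (fun k => h (fc (W k) : FL (l k).T) (l k).v) ∧ (l.addW W).IsMax A B := by
  have hd : (l.addW W).DM A B :=
    ⟨(hl.1.1.add h1).of_le (Eventually.of_forall fun k => FLab.leak_nonneg _ _)
      (Eventually.of_forall fun k => (l k).addW_leak_le (W k) (A k)),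
    (hl.1.2.add h2).of_le (Eventually.of_forall fun k => FLab.leak_nonneg _ _)
      (Eventually.of_forall fun k => (l k).addW_leak_le (W k) (B k))⟩
  have hle := hl.2 _ hd
  have t1 := ul_tendsto (hd.ub hA)
  have t2 := ul_tendsto (hl.1.ub hA)
  have t3 : Tendsto (fun k => ((l.addW W) k).info / (S.F k).n - (l k).info / (S.F k).n +
      h (fc (W k) : FL (l k).T) ((l k).v ⊔ (l k).p.map (A k)) / (S.F k).n) UF
      (𝓝 ((l.addW W).info - l.info + 0)) := (t1.sub t2).add h1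
  have hb : ∀ k, h (fc (W k) : FL (l k).T) (l k).v / (S.F k).n ≤ ((l.addW W) k).info / (S.F k).n -
      (l k).info / (S.F k).n + h (fc (W k) : FL (l k).T) ((l k).v ⊔ (l k).p.map (A k)) / (S.F k).n := by
    intro k
    have h3 := (l k).addW_info_ge (W k) (A k)
    rw [← sub_div, ← add_div]
    apply div_le_div_of_nonneg_right _ (S.F k).pos.le
    have h4 : ((l.addW W) k).info = ((l k).addW (W k)).info := rfl
    rw [h4]
    linarith
  have h0 : ∀ k, 0 ≤ h (fc (W k) : FL (l k).T) (l k).v / (S.F k).n := fun k =>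
    div_nonneg (h_nonneg _ _) (S.F k).pos.le
  have hL : 0 ≤ (l.addW W).info - l.info + 0 :=
    ge_of_tendsto t3 (Eventually.of_forall fun k => (h0 k).trans (hb k))
  have hE : (l.addW W).info = l.info := by linarith
  rw [hE, sub_self, add_zero] at t3
  refine ⟨tendsto_of_tendsto_of_tendsto_of_le_of_le tendsto_const_nhds t3 h0 hb, hd, fun l' hl' => ?_⟩
  rw [hE]
  exact hl.2 l' hl'

/-- K (3.5), EXACT LABEL: the same on an event `E` of positive probability of the label space -/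
theorem IsMax.fun_small_im (hl : l.IsMax A B) (hA : A.Bd) (E : ∀ k, (l.sp.F k).Ω → Prop) (hE : 0 < ul (l.sp.pr E))
    (hA₂ : (A.im l.pj fun k ω => ¬ E k ω).Bd) (W : ∀ k, Setoid (l k).T.Ω)
    (h1 : Nul S (fun k => h (fc (W k) : FL ((l k).T.rest (E k)))
      ((l k).T.rmap (E k) ((l k).v ⊔ (l k).p.map (A k)))))
    (h2 : Nul S (fun k => h (fc (W k) : FL ((l k).T.rest (E k)))
      ((l k).T.rmap (E k) ((l k).v ⊔ (l k).p.map (B k))))) :
    Nul S (fun k => h (fc (W k) : FL ((l k).T.rest (E k))) ((l k).T.rmap (E k) (l k).v)) ∧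
      ((l.im E).addW W).IsMax (A.im l.pj E) (B.im l.pj E) := by
  have hm := hl.im_max E hE hA hA₂
  have e : ∀ (A : Part S) (k : ℕ), ((l.im E) k).v ⊔ ((l.im E) k).p.map ((A.im l.pj E) k) =
      (l k).T.rmap (E k) ((l k).v ⊔ (l k).p.map (A k)) := by
    intro A k
    have e1 : ((l.im E) k).p.map ((A.im l.pj E) k) = (l k).T.rmap (E k) ((l k).p.map (A k)) :=
      FSp.imp_imap (l k).p (E k) (A k)
    rw [e1]
    exact ((l k).T.rmap_sup (E k) (l k).v ((l k).p.map (A k))).symm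
  have r := IsMax.fun_small hm (hA.im l.pj hE) W
    (by
      have : (fun k => h (fc (W k) : FL ((l.im E) k).T) (((l.im E) k).v ⊔ ((l.im E) k).p.map ((A.im l.pj E) k))) =
          fun k => h (fc (W k) : FL ((l k).T.rest (E k))) ((l k).T.rmap (E k) ((l k).v ⊔ (l k).p.map (A k))) := by
        funext k; rw [e A k]; rfl
      rw [this]; exact h1)
    (by
      have : (fun k => h (fc (W k) : FL ((l.im E) k).T) (((l.im E) k).v ⊔ ((l.im E) k).p.map ((B.im l.pj E) k))) =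
          fun k => h (fc (W k) : FL ((l k).T.rest (E k))) ((l k).T.rmap (E k) ((l k).v ⊔ (l k).p.map (B k))) := by
        funext k; rw [e B k]; rfl
      rw [this]; exact h2)
  exact r

/-- restriction of null conditional entropies to events of positive probability -/
theorem nul_rmap (E : ∀ k, (l.sp.F k).Ω → Prop) (hE : 0 < ul (l.sp.pr E)) (x y : ∀ k, FL (l k).T)
    (h0 : Nul S (fun k => h (x k) (y k))) :
    Nul S (fun k => h ((l k).T.rmap (E k) (x k)) ((l k).T.rmap (E k) (y k))) := by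
  have hn : ∀ k, (l.sp.F k).n = (S.F k).n := fun k => (l k).hn
  rw [← nul_n hn] at h0 ⊢
  exact Nul.div_pr hE h0 (fun k => h_nonneg _ _) (fun k => ((l k).T.rmap_h_le (E k) _ _).trans (by linarith))

end Lab

/-! ### agreement of copies -/

theorem _root_.Pool.Agent.Helper31.EC.FSp.pb_and_ge (F : FSp) (P Q : F.Ω → Prop) :
    F.pb P + F.pb Q - 1 ≤ F.pb (fun ω => P ω ∧ Q ω) := by
  have h1 : F.pb P = ∑ ω, res F.μ P ω := rfl
  have h2 : F.pb Q = ∑ ω, res F.μ Q ω := rfl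
  have h3 : F.pb (fun ω => P ω ∧ Q ω) = ∑ ω, res F.μ (fun ω => P ω ∧ Q ω) ω := rfl
  have h4 : ∑ ω, F.μ ω = 1 := F.ms
  rw [h1, h2, h3, ← h4, ← Finset.sum_add_distrib, ← Finset.sum_sub_distrib]
  apply Finset.sum_le_sum
  intro ω _
  have h0 := F.nn ω
  by_cases hP : P ω
  · by_cases hQ : Q ω
    · rw [res_pos _ _ _ hP, res_pos _ _ _ hQ, res_pos (E := fun ω => P ω ∧ Q ω) _ _ ⟨hP, hQ⟩]; linarith
    · rw [res_pos _ _ _ hP, res_neg _ _ _ hQ, res_neg (E := fun ω => P ω ∧ Q ω) _ _ (fun h => hQ h.2)]; linarith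
  · by_cases hQ : Q ω
    · rw [res_neg _ _ _ hP, res_pos _ _ _ hQ, res_neg (E := fun ω => P ω ∧ Q ω) _ _ (fun h => hP h.1)]; linarith
    · rw [res_neg _ _ _ hP, res_neg _ _ _ hQ, res_neg (E := fun ω => P ω ∧ Q ω) _ _ (fun h => hP h.1)]; linarith

theorem nvf_le_card {Ω α γ : Type} [Fintype Ω] (μ : Ω → ℝ) (f : Ω → α) (g : Ω → γ) (ω : Ω) (N : ℕ) (e : Fin N → α)
    (he : ∀ ω', μ ω' ≠ 0 → g ω' = g ω → ∃ i, f ω' = e i) : nvf μ f g ω ≤ N := by
  classical
  unfold nvf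
  refine (Finset.card_le_card (t := univ.image e) ?_).trans ?_
  · intro q hq
    rw [Finset.mem_image] at hq
    obtain ⟨ω', hω', rfl⟩ := hq
    rw [Finset.mem_filter] at hω'
    obtain ⟨i, hi⟩ := he ω' hω'.2.1 hω'.2.2
    rw [Finset.mem_image]
    exact ⟨i, Finset.mem_univ _, hi.symm⟩
  · refine Finset.card_image_le.trans ?_
    rw [Finset.card_univ, Fintype.card_fin]

/-- few values on an event -/
theorem h_few {F : FSp} (E : F.Ω → Prop) {V V' : Type} (u : F.Ω → V) (w : F.Ω → V') (N : ℕ) (e : V' → Fin N → V)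
    (he : ∀ ω, F.μ ω ≠ 0 → E ω → ∃ i, u ω = e (w ω) i) (hE : F.pb E ≠ 0) :
    h (fc (Setoid.ker u) : FL (F.rest E)) (fc (Setoid.ker w) : FL (F.rest E)) ≤ Real.logb 2 N := by
  classical
  apply h_le_log
  intro ω hω
  have hE' : ∀ ω', (F.rest E).μ ω' ≠ 0 → F.μ ω' ≠ 0 ∧ E ω' := fun ω' h' =>
    ⟨(F.rest_supp E ω' h').1, (F.rest_supp E ω' h').2 hE⟩
  apply nvf_le_card _ _ _ _ N (fun i => if hi : ∃ ω' : F.Ω, u ω' = e (w ω) i then
        (Quotient.mk (Setoid.ker u : Setoid (F.rest E).Ω) hi.choose) else Quotient.mk _ ω)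
  intro ω' h1 h2
  have h3 : w ω' = w ω := (Quotient.exact h2 : (Setoid.ker w ⊓ (F.rest E).Z) ω' ω).1
  obtain ⟨i, hi⟩ := he ω' (hE' ω' h1).1 (hE' ω' h1).2
  rw [h3] at hi
  refine ⟨i, ?_⟩
  have hex : ∃ ω' : F.Ω, u ω' = e (w ω) i := ⟨ω', hi⟩
  rw [dif_pos hex]
  apply Quotient.sound
  show u ω' = u hex.choose
  rw [hex.choose_spec, hi]

namespace Lab

variable {S : Sp} {l : Lab S} {A B : Part S}

theorem pr_ge_of {p0 : ℝ} {E : ∀ k, (l.sp.F k).Ω → Prop} (h : ∀ᶠ k in UF, p0 ≤ (l k).T.pb (E k)) :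
    p0 ≤ ul (l.sp.pr E) := const_le_ul (Sp.UB_pr E) h

/-- K (3.5): AGREEMENT OF COPIES GIVEN `(A, l)` WITH POSITIVE PROBABILITY. `u` a function on the space of the maximal
label `l`, `R` the agreement relation, `D` the self amalgams over a function of `(A, l)`; the rounding `rd1 u` is a
function of `(B, l)`, and `rd2 y` is one of `N` values determined by `rd1 x` if `R x y`. Then there are a function `ub`
of the common variable and an event on which `R u ub` such that `rd2 ub` is a function of the label on the event. -/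
theorem IsMax.agree (hl : l.IsMax A B) (hA : A.Bd)
    (hA₂ : ∀ E : ∀ k, (l.sp.F k).Ω → Prop, (A.im l.pj E).Bd)
    (D : ∀ k, FAm (l k).T (l k).T) (hD : ∀ k, (D k).f = (D k).g)
    (hY : ∀ k, (fc (Setoid.ker (D k).f) : FL (l k).T) ≤ (l k).v ⊔ (l k).p.map (A k))
    (X V1 V2 : ℕ → Type) (u : ∀ k, (l k).T.Ω → X k) (R : ∀ k, X k → X k → Prop) (rd1 : ∀ k, X k → V1 k)
    (rd2 : ∀ k, X k → V2 k) (N : ℕ) (e : ∀ k, V1 k → Fin N → V2 k)
    (he : ∀ k x y, R k x y → ∃ i, rd2 k y = e k (rd1 k x) i)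
    (hB : Nul S (fun k => h (fc (Setoid.ker fun ω => rd1 k (u k ω)) : FL (l k).T) ((l k).v ⊔ (l k).p.map (B k))))
    {p0 : ℝ} (hp0 : 0 < p0) (hp : ∀ᶠ k in UF, p0 ≤ (D k).sp.pb (fun w => R k (u k w.1) (u k w.2))) :
    ∃ (E : ∀ k, (l.sp.F k).Ω → Prop) (ub : ∀ k, (l k).T.Ω → X k), p0 ≤ ul (l.sp.pr E) ∧
      (∀ k ω, E k ω → R k (u k ω) (ub k ω)) ∧ (∀ k ω ω', (D k).f ω = (D k).f ω' → ub k ω = ub k ω') ∧
      (∀ k ω, (l k).T.μ ω ≠ 0 → ∃ ω', (l k).T.μ ω' ≠ 0 ∧ (D k).f ω' = (D k).f ω ∧ ub k ω = u k ω') ∧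
      Nul S (fun k => h (fc (Setoid.ker fun ω => rd2 k (ub k ω)) : FL ((l k).T.rest (E k)))
        ((l k).T.rmap (E k) (l k).v)) ∧
      ((l.im E).addW fun k => Setoid.ker fun ω => rd2 k (ub k ω)).IsMax (A.im l.pj E) (B.im l.pj E) := by
  choose c hc1 hc2 using fun k => (D k).agree (fun ω ω' => R k (u k ω) (u k ω'))
  set ub : ∀ k, (l k).T.Ω → X k := fun k ω => u k (c k ((D k).f ω)) with hub
  set E : ∀ k, (l.sp.F k).Ω → Prop := fun k ω => R k (u k ω) (ub k ω) with hE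
  have hpE : p0 ≤ ul (l.sp.pr E) := by
    apply pr_ge_of
    filter_upwards [hp] with k hk
    exact hk.trans (hc2 k)
  have hpos : 0 < ul (l.sp.pr E) := hp0.trans_le hpE
  have hev : ∀ᶠ k in UF, (l k).T.pb (E k) ≠ 0 := by
    filter_upwards [hp] with k hk
    exact (hp0.trans_le (hk.trans (hc2 k))).ne'
  have hfun : ∀ k, (fc (Setoid.ker fun ω => rd2 k (ub k ω)) : FL (l k).T) ≤ (l k).v ⊔ (l k).p.map (A k) := by
    intro k
    refine le_trans (fc_mono ?_) (hY k)
    intro ω ω' h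
    have h' : (D k).f ω = (D k).f ω' := h
    show rd2 k (ub k ω) = rd2 k (ub k ω')
    rw [hub]
    simp only
    rw [h']
  have hN1 : Nul S (fun k => h (fc (Setoid.ker fun ω => rd2 k (ub k ω)) : FL ((l k).T.rest (E k)))
      ((l k).T.rmap (E k) ((l k).v ⊔ (l k).p.map (A k)))) := by
    have e0 : (fun k => h (fc (Setoid.ker fun ω => rd2 k (ub k ω)) : FL ((l k).T.rest (E k)))
      ((l k).T.rmap (E k) ((l k).v ⊔ (l k).p.map (A k)))) = fun _ => 0 := by
      funext k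
      exact h_zero ((l k).T.rmap_mono (E k) (hfun k))
    rw [e0]; exact Nul_zero S
  have hB' := nul_rmap (l := l) E hpos _ _ hB
  have hN2 : Nul S (fun k => h (fc (Setoid.ker fun ω => rd2 k (ub k ω)) : FL ((l k).T.rest (E k)))
      ((l k).T.rmap (E k) ((l k).v ⊔ (l k).p.map (B k)))) := by
    refine ((Nul.const S (Real.logb 2 N)).add hB').of_le (Eventually.of_forall fun k => h_nonneg _ _) ?_
    filter_upwards [hev] with k hk
    have h3 := h_few (F := (l k).T) (E k) (fun ω => rd2 k (ub k ω)) (fun ω => rd1 k (u k ω)) N (e k)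
      (fun ω _ hω => he k _ _ hω) hk
    have h4 := h_triangle (fc (Setoid.ker fun ω => rd2 k (ub k ω)) : FL ((l k).T.rest (E k)))
      (fc (Setoid.ker fun ω => rd1 k (u k ω))) ((l k).T.rmap (E k) ((l k).v ⊔ (l k).p.map (B k)))
    have h5 : h (fc (Setoid.ker fun ω => rd2 k (ub k ω)) : FL ((l k).T.rest (E k)))
        (fc (Setoid.ker fun ω => rd1 k (u k ω)) ⊔ (l k).T.rmap (E k) ((l k).v ⊔ (l k).p.map (B k))) ≤
        h (fc (Setoid.ker fun ω => rd2 k (ub k ω)) : FL ((l k).T.rest (E k)))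
          (fc (Setoid.ker fun ω => rd1 k (u k ω))) := h_anti le_sup_left
    have h6 : h (fc (Setoid.ker fun ω => rd1 k (u k ω)) : FL ((l k).T.rest (E k)))
        ((l k).T.rmap (E k) ((l k).v ⊔ (l k).p.map (B k))) =
        h ((l k).T.rmap (E k) (fc (Setoid.ker fun ω => rd1 k (u k ω))))
          ((l k).T.rmap (E k) ((l k).v ⊔ (l k).p.map (B k))) := rfl
    exact h4.trans (add_le_add (h5.trans h3) (le_of_eq h6))
  obtain ⟨r1, r2⟩ := IsMax.fun_small_im hl hA E hpos (hA₂ _) (fun k => Setoid.ker fun ω => rd2 k (ub k ω)) hN1 hN2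
  refine ⟨E, ub, hpE, fun k ω h => h, fun k ω ω' h => ?_, fun k ω hω => ?_, r1, r2⟩
  · show u k (c k ((D k).f ω)) = u k (c k ((D k).f ω'))
    rw [h]
  · refine ⟨c k ((D k).f ω), (hc1 k ω hω).2, ?_, rfl⟩
    rw [hD k]
    have := (hc1 k ω hω).1
    rw [hD k] at this
    exact this

/-- AGREEMENT PRINCIPLE (33c sect. 0): copies given `(A, l)` agree and copies given `(B, l)` agree, with probabilities
whose sum is above `1`: the rounding of the best value given `(A, l)` is a function of the maximal label, on an event. -/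
theorem IsMax.agree2 (hl : l.IsMax A B) (hA : A.Bd)
    (hA₂ : ∀ E : ∀ k, (l.sp.F k).Ω → Prop, (A.im l.pj E).Bd)
    (D D' : ∀ k, FAm (l k).T (l k).T) (hD : ∀ k, (D k).f = (D k).g)
    (hY : ∀ k, (fc (Setoid.ker (D k).f) : FL (l k).T) ≤ (l k).v ⊔ (l k).p.map (A k))
    (hY' : ∀ k, (fc (Setoid.ker (D' k).f) : FL (l k).T) ≤ (l k).v ⊔ (l k).p.map (B k))
    (X V : ℕ → Type) (u : ∀ k, (l k).T.Ω → X k) (R R' : ∀ k, X k → X k → Prop)
    (rd : ∀ k, X k → V k) (N : ℕ) (e : ∀ k, X k → Fin N → V k)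
    (he : ∀ k x y z, R k x y → R' k x z → ∃ i, rd k y = e k z i)
    {p p' : ℝ} (hpp : 1 < p + p') (hp : ∀ᶠ k in UF, p ≤ (D k).sp.pb (fun w => R k (u k w.1) (u k w.2)))
    (hp' : ∀ᶠ k in UF, p' ≤ (D' k).sp.pb (fun w => R' k (u k w.1) (u k w.2))) :
    ∃ (E : ∀ k, (l.sp.F k).Ω → Prop) (ub : ∀ k, (l k).T.Ω → X k), p + p' - 1 ≤ ul (l.sp.pr E) ∧
      (∀ k ω, E k ω → R k (u k ω) (ub k ω)) ∧ (∀ k ω ω', (D k).f ω = (D k).f ω' → ub k ω = ub k ω') ∧
      (∀ k ω, (l k).T.μ ω ≠ 0 → ∃ ω', (l k).T.μ ω' ≠ 0 ∧ (D k).f ω' = (D k).f ω ∧ ub k ω = u k ω') ∧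
      Nul S (fun k => h (fc (Setoid.ker fun ω => rd k (ub k ω)) : FL ((l k).T.rest (E k)))
        ((l k).T.rmap (E k) (l k).v)) ∧
      ((l.im E).addW fun k => Setoid.ker fun ω => rd k (ub k ω)).IsMax (A.im l.pj E) (B.im l.pj E) := by
  choose c hc1 hc2 using fun k => (D k).agree (fun ω ω' => R k (u k ω) (u k ω'))
  choose c' hc1' hc2' using fun k => (D' k).agree (fun ω ω' => R' k (u k ω) (u k ω'))
  set ub : ∀ k, (l k).T.Ω → X k := fun k ω => u k (c k ((D k).f ω)) with hub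
  set uz : ∀ k, (l k).T.Ω → X k := fun k ω => u k (c' k ((D' k).f ω)) with huz
  set E : ∀ k, (l.sp.F k).Ω → Prop := fun k ω => R k (u k ω) (ub k ω) ∧ R' k (u k ω) (uz k ω) with hE
  have hge : ∀ᶠ k in UF, p + p' - 1 ≤ (l k).T.pb (E k) := by
    filter_upwards [hp, hp'] with k hk hk'
    have h1 := hk.trans (hc2 k)
    have h2 := hk'.trans (hc2' k)
    have h3 := (l k).T.pb_and_ge (fun ω => R k (u k ω) (ub k ω)) (fun ω => R' k (u k ω) (uz k ω))
    have h4 : (l k).T.pb (fun ω => R k (u k ω) (ub k ω)) = (l k).T.pb (fun ω => R k (u k ω) (u k (c k ((D k).f ω)))) := rfl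
    have h5 : (l k).T.pb (fun ω => R' k (u k ω) (uz k ω)) =
      (l k).T.pb (fun ω => R' k (u k ω) (u k (c' k ((D' k).f ω)))) := rfl
    show p + p' - 1 ≤ (l k).T.pb (fun ω => R k (u k ω) (ub k ω) ∧ R' k (u k ω) (uz k ω))
    linarith
  have hpE : p + p' - 1 ≤ ul (l.sp.pr E) := pr_ge_of hge
  have hpos : 0 < ul (l.sp.pr E) := by linarith
  have hev : ∀ᶠ k in UF, (l k).T.pb (E k) ≠ 0 := by
    filter_upwards [hge] with k hk
    have : 0 < (l k).T.pb (E k) := by linarith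
    exact this.ne'
  have hfun : ∀ k, (fc (Setoid.ker fun ω => rd k (ub k ω)) : FL (l k).T) ≤ (l k).v ⊔ (l k).p.map (A k) := by
    intro k
    refine le_trans (fc_mono ?_) (hY k)
    intro ω ω' h
    have h' : (D k).f ω = (D k).f ω' := h
    show rd k (u k (c k ((D k).f ω))) = rd k (u k (c k ((D k).f ω')))
    rw [h']
  have hfun' : ∀ k, (fc (Setoid.ker (uz k)) : FL (l k).T) ≤ (l k).v ⊔ (l k).p.map (B k) := by
    intro k
    refine le_trans (fc_mono ?_) (hY' k)
    intro ω ω' h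
    have h' : (D' k).f ω = (D' k).f ω' := h
    show u k (c' k ((D' k).f ω)) = u k (c' k ((D' k).f ω'))
    rw [h']
  have hN1 : Nul S (fun k => h (fc (Setoid.ker fun ω => rd k (ub k ω)) : FL ((l k).T.rest (E k)))
      ((l k).T.rmap (E k) ((l k).v ⊔ (l k).p.map (A k)))) := by
    have e0 : (fun k => h (fc (Setoid.ker fun ω => rd k (ub k ω)) : FL ((l k).T.rest (E k)))
      ((l k).T.rmap (E k) ((l k).v ⊔ (l k).p.map (A k)))) = fun _ => 0 := by
      funext k
      exact h_zero ((l k).T.rmap_mono (E k) (hfun k))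
    rw [e0]; exact Nul_zero S
  have hN2 : Nul S (fun k => h (fc (Setoid.ker fun ω => rd k (ub k ω)) : FL ((l k).T.rest (E k)))
      ((l k).T.rmap (E k) ((l k).v ⊔ (l k).p.map (B k)))) := by
    refine (Nul.const S (Real.logb 2 N)).of_le (Eventually.of_forall fun k => h_nonneg _ _) ?_
    filter_upwards [hev] with k hk
    have h3 := h_few (F := (l k).T) (E k) (fun ω => rd k (ub k ω)) (uz k) N (e k)
      (fun ω _ hω => he k _ _ _ hω.1 hω.2) hk
    refine le_trans (h_anti ?_) h3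
    exact (l k).T.rmap_mono (E k) (hfun' k)
  obtain ⟨r1, r2⟩ := IsMax.fun_small_im hl hA E hpos (hA₂ _) (fun k => Setoid.ker fun ω => rd k (ub k ω)) hN1 hN2
  refine ⟨E, ub, hpE, fun k ω h => h.1, fun k ω ω' h => ?_, fun k ω hω => ?_, r1, r2⟩
  · show u k (c k ((D k).f ω)) = u k (c k ((D k).f ω'))
    rw [h]
  · refine ⟨c k ((D k).f ω), (hc1 k ω hω).2, ?_, rfl⟩
    rw [hD k]
    have := (hc1 k ω hω).1
    rw [hD k] at this
    exact this

end Lab

/-- the partitions of a system stay of bounded entropy on all events of extensions -/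
theorem cA_im_Bd {S : Sp} {m : ℕ} (s : Sys S m) (c : ℝ) {T : Sp} (p : Pj T S) (E : ∀ k, (T.F k).Ω → Prop) :
    ((cA s c).im p E).Bd :=
  pof_Bd (Sp.im_VB p E (Sp.Inf.sup (Sp.Inf.sup (s.Ia 1) (s.Ix 1)) (s.It c)).2)

end

end Pool.Agent.Helper40.EL
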