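import Pool.Agent.Helper52.KP.Glue
import Pool.Agent.Helper40.EL.W1

/-! ADDITIVITY of maximal informations over positive restrictions, for EVERY system (helper17 sect. 1; KAPPA (3.2),
(3.4) without robustness): a maximal double Markov label is maximal on every event (of its own space) of positive
probability, and `i_S(c) = p i_(S|E)(c) + (1 - p) i_(S|not E)(c)`. -/

namespace Pool.Agent.Helper40.EL

open Finset Filter Topology Pool.Agent.Helper69.RK Pool.Agent.Helper31.EC Pool.Agent.Helper52.KP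

noncomputable section

/-- entropy bounds on events of positive probability of an extension -/
theorem Part.Bd.im {T S : Sp} (p : Pj T S) {E : ∀ k, (T.F k).Ω → Prop} (hE : 0 < ul (T.pr E)) {A : Part S}
    (hA : A.Bd) : (A.im p E).Bd := by
  obtain ⟨C, hC⟩ := hA
  refine ⟨2 / ul (T.pr E) * C, ?_⟩
  filter_upwards [hC, pr_half' hE] with k hk hk2
  have h1 : (T.F k).pb (E k) * h ((T.F k).rmap (E k) ((p.fp k).map (A k))) ((T.F k).rmap (E k) ⊥) ≤
      h ((p.fp k).map (A k)) ⊥ := (T.F k).rmap_h_le (E k) _ _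
  have h2 : h ((p.fp k).map (A k)) ⊥ = H (A k) := by
    rw [h_bot, (p.fp k).H_map]
  have h3 : h ((T.F k).rmap (E k) ((p.fp k).map (A k))) ((T.F k).rmap (E k) ⊥) = H ((A.im p E) k) := by
    rw [← FSp.imp_imap, FSp.rmap_bot, h_bot, (FSp.imp (p.fp k) (E k)).H_map]
    rfl
  rw [h2, h3] at h1
  have hn := (S.F k).pos
  have h4 : 0 ≤ H ((A.im p E) k) / (S.F k).n := div_nonneg (H_nonneg _) hn.le
  have h5 : (T.F k).pb (E k) * (H ((A.im p E) k) / (S.F k).n) ≤ H (A k) / (S.F k).n := by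
    rw [← mul_div_assoc]
    exact div_le_div_of_nonneg_right h1 hn.le
  have h6 : ul (T.pr E) / 2 * (H ((A.im p E) k) / (S.F k).n) ≤ C := by
    have h7 : ul (T.pr E) / 2 * (H ((A.im p E) k) / (S.F k).n) ≤ (T.F k).pb (E k) * (H ((A.im p E) k) / (S.F k).n) :=
      mul_le_mul_of_nonneg_right hk2 h4
    have h8 : H (A k) / (S.F k).n ≤ C := (le_abs_self _).trans hk
    linarith
  show |H ((A.im p E) k) / (S.F k).n| ≤ _
  rw [abs_of_nonneg h4]
  have h9 : 2 / ul (T.pr E) * (ul (T.pr E) / 2 * (H ((A.im p E) k) / (S.F k).n)) = H ((A.im p E) k) / (S.F k).n := by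
    field_simp
  rw [← h9]
  exact mul_le_mul_of_nonneg_left h6 (by positivity)

namespace Lab

variable {S : Sp} {l : Lab S} {A B : Part S}

theorem DM_triv_im {T : Sp} (p : Pj T S) (E : ∀ k, (T.F k).Ω → Prop) (A B : Part (Sp.im p E)) :
    Lab.DM (fun k => FLab.triv ((Sp.im p E).F k)) A B := DM_triv A B

/-- a label of the restriction to a typical event extends to a label of the space -/
theorem DM.info_le_typ {T : Sp} (p : Pj T S) (E : ∀ k, (T.F k).Ω → Prop) (hE : Sp.Typ E) (h : l.IsMax A B)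
    (hA : A.Bd) {l₁ : Lab (Sp.im p E)} (h₁ : l₁.DM (A.im p E) (B.im p E)) : l₁.info ≤ l.info := by
  have hE0 := Sp.ul_pr_typ_pos E hE
  have u₁ := h₁.ub (hA.im p hE0)
  have d := DM.glue h₁ (DM_triv_im p (fun k ω => ¬ E k ω) (A.im p (fun k ω => ¬ E k ω)) (B.im p (fun k ω => ¬ E k ω)))
  have h2 := h.2 _ d
  have e0 : (fun k => (FLab.triv ((Sp.im p (fun k ω => ¬ E k ω)).F k)).info / (S.F k).n) = fun _ => 0 := by
    funext k
    rw [FLab.triv_info, zero_div]
  have u₂ : UB (fun k => (FLab.triv ((Sp.im p (fun k ω => ¬ E k ω)).F k)).info / (S.F k).n) := by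
    rw [e0]; exact UB_const 0
  have h3 := glue_info_eq (p := p) (E := E) (l₁ := l₁)
    (l₂ := fun k => FLab.triv ((Sp.im p (fun k ω => ¬ E k ω)).F k)) u₁ u₂
  have h4 : ul (T.pr E) = 1 := Sp.ul_pr_typ E hE
  rw [h4] at h3
  linarith

/-- informations of restrictions to typical events -/
theorem DM.info_rst_typ (h : l.DM A B) (E : ∀ k, (S.F k).Ω → Prop) (hE : Sp.Typ E) (hA : A.Bd)
    (hA₁ : (A.rest E).Bd) (hA₂ : (A.rest fun k ω => ¬ E k ω).Bd) : l.info ≤ (l.rst E).info := by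
  have hE0 := Sp.ul_pr_typ_pos E hE
  have u := h.ub hA
  have u₁ := (h.rst E hE0).ub hA₁
  have hp := (Sp.Typ_iff E).mp hE
  have hp' : Tendsto (fun k => 1 - S.pr E k) UF (𝓝 0) := by
    have := hp.const_sub 1
    rwa [sub_self] at this
  have hr : ∀ k, (1 - (S.F k).pb (E k)) * ((l k).rst fun ω => ¬ E k ω).info ≤
      (1 - (S.F k).pb (E k)) * H ((A.rest fun k ω => ¬ E k ω) k) + ((l k).leak (A k) + 1) := by
    intro k
    have h1 := FLab.info_le ((l k).rst fun ω => ¬ E k ω) ((A.rest fun k ω => ¬ E k ω) k)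
    have h2 := (l k).rst_leak_le (fun ω => ¬ E k ω) (A k)
    have h3 : (S.F k).pb (fun ω => ¬ E k ω) = 1 - (S.F k).pb (E k) := by
      have := (S.F k).pb_add_compl (E k)
      linarith
    rw [h3] at h2
    have h4 : 0 ≤ 1 - (S.F k).pb (E k) := sub_nonneg.mpr ((S.F k).pb_le_one (E k))
    have h5 := mul_le_mul_of_nonneg_left h1 h4
    rw [mul_add] at h5
    have h6 : (1 - (S.F k).pb (E k)) * ((l k).rst fun ω => ¬ E k ω).leak ((A.rest fun k ω => ¬ E k ω) k) ≤
        (l k).leak (A k) + 1 := h2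
    exact h5.trans (add_le_add le_rfl h6)
  have t : Tendsto (fun k => S.pr E k * (((l.rst E) k).info / (S.F k).n) + ((1 - S.pr E k) *
      (H ((A.rest fun k ω => ¬ E k ω) k) / (S.F k).n) + ((l k).leak (A k) / (S.F k).n + 1 / (S.F k).n)) +
        1 / (S.F k).n) UF
      (𝓝 (1 * (l.rst E).info + (0 * ul (fun k => H ((A.rest fun k ω => ¬ E k ω) k) / (S.F k).n) +
        (0 + 0)) + 0)) :=
    ((hp.mul (ul_tendsto u₁)).add ((hp'.mul (ul_tendsto hA₂)).add
      (Filter.Tendsto.add h.1 (S.div_n_tendsto 1)))).add (S.div_n_tendsto 1)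
  simp only [one_mul, zero_mul, add_zero] at t
  refine le_of_tendsto_of_tendsto (ul_tendsto u) t (Eventually.of_forall fun k => ?_)
  have h1 := (l k).rst_split (E k)
  have h2 := hr k
  have h3 : (l k).info ≤ (S.F k).pb (E k) * ((l k).rst (E k)).info + ((1 - (S.F k).pb (E k)) *
      H ((A.rest fun k ω => ¬ E k ω) k) + ((l k).leak (A k) + 1)) + 1 := by linarith
  have h4 := div_le_div_of_nonneg_right h3 (S.F k).pos.le
  refine h4.trans (le_of_eq ?_)
  show ((S.F k).pb (E k) * ((l k).rst (E k)).info + ((1 - (S.F k).pb (E k)) *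
      H ((A.rest fun k ω => ¬ E k ω) k) + ((l k).leak (A k) + 1)) + 1) / (S.F k).n =
    (S.F k).pb (E k) * (((l k).rst (E k)).info / (S.F k).n) + ((1 - (S.F k).pb (E k)) *
      (H ((A.rest fun k ω => ¬ E k ω) k) / (S.F k).n) + ((l k).leak (A k) / (S.F k).n + 1 / (S.F k).n)) +
        1 / (S.F k).n
  ring

/-- (3.4) FOR EVERY SPACE: maximal labels are maximal on every event of positive probability of their space -/
theorem IsMax.im_max (h : l.IsMax A B) (E : ∀ k, (l.sp.F k).Ω → Prop) (hE : 0 < ul (l.sp.pr E)) (hA : A.Bd)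
    (hA₂ : (A.im l.pj fun k ω => ¬ E k ω).Bd) : (l.im E).IsMax (A.im l.pj E) (B.im l.pj E) := by
  have hA₁ := hA.im l.pj hE
  rcases Sp.typ_or E with ht | hE'
  · exact (IsMax.im_typ h E ht hA hA₁ hA₂ (fun l₁ h₁ => DM.info_le_typ l.pj E ht h hA h₁)).1
  · have d₁ := h.1.im E hE
    have d₂ := h.1.im (fun k ω => ¬ E k ω) hE'
    have u := h.1.ub hA
    have u₁ := d₁.ub hA₁
    have u₂ := d₂.ub hA₂
    refine ⟨d₁, fun l₁ h₁ => ?_⟩
    have v₁ := h₁.ub hA₁
    have g := h.2 _ (DM.glue h₁ d₂)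
    have g2 := glue_info_eq (p := l.pj) (E := E) (l₁ := l₁) (l₂ := l.im fun k ω => ¬ E k ω) v₁ u₂
    rw [g2] at g
    have e : l.info ≤ ul (l.sp.pr E) * (l.im E).info + (1 - ul (l.sp.pr E)) * (l.im fun k ω => ¬ E k ω).info := by
      have t : Tendsto (fun k => l.sp.pr E k * (((l.im E) k).info / (S.F k).n) + (1 - l.sp.pr E k) *
          (((l.im fun k ω => ¬ E k ω) k).info / (S.F k).n) + 1 / (S.F k).n) UF
          (𝓝 (ul (l.sp.pr E) * (l.im E).info + (1 - ul (l.sp.pr E)) * (l.im fun k ω => ¬ E k ω).info + 0)) :=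
        (((ul_tendsto (Sp.UB_pr E)).mul (ul_tendsto u₁)).add
          (((ul_tendsto (Sp.UB_pr E)).const_sub 1).mul (ul_tendsto u₂))).add (S.div_n_tendsto 1)
      rw [add_zero] at t
      refine le_of_tendsto_of_tendsto (ul_tendsto u) t (Eventually.of_forall fun k => ?_)
      have h1 := ((l k).im_info (E k)).1
      have h2 := div_le_div_of_nonneg_right h1 (S.F k).pos.le
      exact h2.trans (le_of_eq (dv2 _ _ _ _))
    have h5 : ul (l.sp.pr E) * l₁.info ≤ ul (l.sp.pr E) * (l.im E).info := by linarith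
    exact le_of_mul_le_mul_left h5 hE

/-- ADDITIVITY of maximal informations -/
theorem IsMax.add (h : l.IsMax A B) {T : Sp} (p : Pj T S) (E : ∀ k, (T.F k).Ω → Prop) (hE : 0 < ul (T.pr E))
    (hE' : 0 < ul (T.pr fun k ω => ¬ E k ω)) {l₁ : Lab (Sp.im p E)} {l₂ : Lab (Sp.im p fun k ω => ¬ E k ω)}
    (h₁ : l₁.IsMax (A.im p E) (B.im p E))
    (h₂ : l₂.IsMax (A.im p fun k ω => ¬ E k ω) (B.im p fun k ω => ¬ E k ω)) (hA : A.Bd) :
    l.info = ul (T.pr E) * l₁.info + (1 - ul (T.pr E)) * l₂.info := by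
  have hA₁ := hA.im p hE
  have hA₂ := hA.im p hE'
  apply le_antisymm
  · obtain ⟨l', hl'⟩ := exists_max (A.pull p) (B.pull p) (hA.pull p)
    have b₁ : ((A.pull p).rest E).Bd := by
      rw [← Part.im_pull]; exact hA₁.pull _
    have b₂ : ((A.pull p).rest fun k ω => ¬ E k ω).Bd := by
      rw [← Part.im_pull]; exact hA₂.pull _
    obtain ⟨m₁, hm₁⟩ := exists_max ((A.pull p).rest E) ((B.pull p).rest E) b₁
    obtain ⟨m₂, hm₂⟩ := exists_max ((A.pull p).rest fun k ω => ¬ E k ω) ((B.pull p).rest fun k ω => ¬ E k ω) b₂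
    have s := IsMax.split hl' E hE hE' hm₁ hm₂ (hA.pull p) b₁ b₂
    have e0 := IsMax.info_pull p h hl' hA
    have hm₁' : m₁.IsMax (Part.pull (Sp.imq p E) (A.im p E)) (Part.pull (Sp.imq p E) (B.im p E)) := by
      rw [Part.im_pull, Part.im_pull]; exact hm₁
    have hm₂' : m₂.IsMax (Part.pull (Sp.imq p fun k ω => ¬ E k ω) (A.im p fun k ω => ¬ E k ω))
        (Part.pull (Sp.imq p fun k ω => ¬ E k ω) (B.im p fun k ω => ¬ E k ω)) := by
      rw [Part.im_pull, Part.im_pull]; exact hm₂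
    have e1 := IsMax.info_pull (Sp.imq p E) h₁ hm₁' hA₁
    have e2 := IsMax.info_pull (Sp.imq p fun k ω => ¬ E k ω) h₂ hm₂' hA₂
    rw [e0, e1, e2] at s
    exact s
  · have g := h.2 _ (DM.glue h₁.1 h₂.1)
    have g2 := glue_info_eq (p := p) (E := E) (l₁ := l₁) (l₂ := l₂) (h₁.1.ub hA₁) (h₂.1.ub hA₂)
    rw [g2] at g
    exact g

end Lab

/-! ### systems -/

section
variable {S : Sp} {m : ℕ} (s : Sys S m)

theorem cA_im {T : Sp} (p : Pj T S) (E : ∀ k, (T.F k).Ω → Prop) (hE : 0 < ul (T.pr E)) (c : ℝ) :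
    cA (s.im p E hE) c = (cA s c).im p E := rfl

theorem cB_im {T : Sp} (p : Pj T S) (E : ∀ k, (T.F k).Ω → Prop) (hE : 0 < ul (T.pr E)) :
    cB (s.im p E hE) = (cB s).im p E := rfl

/-- (3.2) ADDITIVITY OF `i(c)` -/
theorem ic_add {T : Sp} (p : Pj T S) (E : ∀ k, (T.F k).Ω → Prop) (hE : 0 < ul (T.pr E))
    (hE' : 0 < ul (T.pr fun k ω => ¬ E k ω)) (c : ℝ) :
    ic s c = ul (T.pr E) * ic (s.im p E hE) c + (1 - ul (T.pr E)) * ic (s.im p (fun k ω => ¬ E k ω) hE') c := by
  have h0 := kap_isKap s c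
  have h1 := kap_isKap (s.im p E hE) c
  have h2 := kap_isKap (s.im p (fun k ω => ¬ E k ω) hE') c
  have h3 := Lab.IsMax.add h0 p E hE hE' h1 h2 (cA_Bd s c)
  have e0 := h0.info_eq
  have e1 := h1.info_eq
  have e2 := h2.info_eq
  rw [e0, e1, e2] at h3
  linarith

/-- typical events do not change `i(c)` -/
theorem ic_typ {T : Sp} (p : Pj T S) (E : ∀ k, (T.F k).Ω → Prop) (ht : Sp.Typ E) (hE : 0 < ul (T.pr E)) (c : ℝ) :
    ic (s.im p E hE) c = ic s c := by
  have h0 := kap_isKap s c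
  have h1 := kap_isKap (s.im p E hE) c
  have e0 := h0.info_eq
  have e1 := h1.info_eq
  apply le_antisymm
  · have h2 := Lab.DM.info_le_typ p E ht h0 (cA_Bd s c) h1.1
    linarith
  · -- the pullback of the maximal label, restricted
    set l := kap s c with hl
    have hup := h0.1.up' p
    have hr := hup.rst E hE
    have b1 : ((cA s c).pull p).Bd := (cA_Bd s c).pull p
    have b2 : (((cA s c).pull p).rest E).Bd := by
      rw [← Part.im_pull]; exact ((cA_Bd s c).im p hE).pull _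
    have hr' : ((l.up' p).rst E).DM (Part.pull (Sp.imq p E) ((cA s c).im p E))
        (Part.pull (Sp.imq p E) ((cB s).im p E)) := by
      rw [Part.im_pull, Part.im_pull]; exact hr
    have hd := hr'.down (Sp.imq p E)
    have h2 := info_le_ic (s := s.im p E hE) (c := c) hd
    rw [Lab.DM.info_down (Sp.imq p E) hr' ((cA_Bd s c).im p hE)] at h2
    have h3 := Lab.info_up' p h0.1 (cA_Bd s c)
    -- informations on typical events
    have u := hup.ub b1
    have u1 := hr.ub b2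
    have hp := (Sp.Typ_iff E).mp ht
    have b3 : (((cA s c).pull p).rest fun k ω => ¬ E k ω).Bd :=
      pof_Bd (Sp.rest_VB (fun k ω => ¬ E k ω) (p.vb_pb.mpr (Sp.Inf.sup (Sp.Inf.sup (s.Ia 1) (s.Ix 1)) (s.It c)).2))
    have h4 : (l.up' p).info ≤ ((l.up' p).rst E).info := Lab.DM.info_rst_typ hup E ht b1 b2 b3
    linarith

end

end

end Pool.Agent.Helper40.EL
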