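import Pool.Agent.Helper52.KP.RobI
import Pool.Agent.Helper42.NS.Rbt

/-! `i(c)` as a robust functional of helper42's framework (all extensions, all truncations). -/

namespace Pool.Agent.Helper52.KP

open Finset Filter Topology Pool.Agent.Helper69.RK Pool.Agent.Helper31.EC Pool.Agent.Helper31.EC.Sp
open Pool.Agent.Helper40.EL Pool.Agent.Helper42.NS

noncomputable section

variable {m : ℕ}

/-- extensions do not change `i(c)` -/
theorem icE_pull {T S : Sp} (p : Pj T S) (s : Sys S m) (c : ℝ) :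
    Helper40.EL.ic (s.pull p) c = Helper40.EL.ic s c := by
  rw [← ic_eq, ← ic_eq, ic_pull]

theorem cA_pull {T S : Sp} (p : Pj T S) (s : Sys S m) (c : ℝ) : (cA s c).pull p = cA (s.pull p) c := pmap_pA p s c

theorem cB_pull {T S : Sp} (p : Pj T S) (s : Sys S m) : (cB s).pull p = cB (s.pull p) := pmap_pB p s

/-- a maximal label and its pullback -/
theorem isKap_up {T S : Sp} (p : Pj T S) {s : Sys S m} {c : ℝ} {l : Lab S} (hl : IsKap s c l) :
    IsKap (s.pull p) c (l.up' p) := by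
  have h0 : l.DM (cA s c) (cB s) := hl.1
  have h1 : (l.up' p).DM ((cA s c).pull p) ((cB s).pull p) := h0.up' p
  have h2 : DMc (s.pull p) c (l.up' p) := by
    rw [cA_pull, cB_pull] at h1
    exact h1
  have h3 : l.info ≤ (l.up' p).info := Lab.info_up' p h0 (cA_Bd s c)
  refine isKap_of_info h2 ?_
  rw [icE_pull, ← hl.info_eq]
  exact h3

/-- `i(c)` as a functional -/
def icF {c : ℝ} (h0 : 0 ≤ c) (h1 : c ≤ 1) : Fnl m where
  f := fun _ s => Helper40.EL.ic s c
  nn := fun _ _ => Helper40.EL.ic_nonneg h0 h1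
  usc := ic_usc h0 h1
  spl := fun _ s _ p E hE hE' => (ic_add s p E hE hE' c).le
  typ := fun _ s _ p E hE ht => (ic_typ s p E ht hE c).ge
  pull := fun _ s _ p => icE_pull p s c

theorem RobustI.robF {S : Sp} {s : Sys S m} (h : RobustI s) {c : ℝ} (h0 : 0 ≤ c) (h1 : c ≤ 1) :
    RobF (icF h0 h1) s := fun T p E hE => h c h0 h1 T p E hE

theorem robustI_of_rat {S : Sp} {s : Sys S m}
    (h : ∀ (c : ℚ) (h0 : (0 : ℝ) ≤ c) (h1 : (c : ℝ) ≤ 1), RobF (icF h0 h1) s) : RobustI s := by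
  intro c h0 h1 T p E hE
  have h2 : ∀ (c : ℚ) (_ : 0 ≤ c) (_ : c ≤ 1), Helper40.EL.ic (s.im p E hE) c = Helper40.EL.ic s c :=
    fun c h0 h1 => h c (by exact_mod_cast h0) (by exact_mod_cast h1) T p E hE
  exact le_antisymm (ic_le_of_rat _ _ (fun c h0 h1 => (h2 c h0 h1).le) h0 h1)
    (ic_le_of_rat _ _ (fun c h0 h1 => (h2 c h0 h1).ge) h0 h1)

theorem RobustI.im {S : Sp} {s : Sys S m} (h : RobustI s) {T : Sp} (p : Pj T S)
    (E : ∀ k, (T.F k).Ω → Prop) (hE : 0 < ul (T.pr E)) : RobustI (s.im p E hE) :=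
  fun _ h0 h1 _ p' E' hE' => (h.robF h0 h1).im p E hE _ p' E' hE'

theorem RobustI.pull {S : Sp} {s : Sys S m} (h : RobustI s) {T : Sp} (p : Pj T S) : RobustI (s.pull p) :=
  fun _ h0 h1 _ p' E' hE' => (h.robF h0 h1).pull p _ p' E' hE'

theorem RobustI.rest {S : Sp} {s : Sys S m} (h : RobustI s)
    (E : ∀ k, (S.F k).Ω → Prop) (hE : 0 < ul (S.pr E)) : RobustI (s.rest E hE) :=
  fun _ h0 h1 _ p' E' hE' => (h.robF h0 h1).rest E hE _ p' E' hE'

/-- (3.3) WITH ALL RATIONAL TRUNCATIONS: every class closed under diagonals and restrictions to events of extensions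
contains a system `s` such that `i(.)`, the `psi` of countably many gauges and countably many further functionals are
rigid at `s` and at all rational truncations of `s` -/
theorem exists_robustAll_trn (C : ∀ S : Sp, Sys S m → Prop) (hC : DiagCl C)
    (him : ∀ (S : Sp) (s : Sys S m), C S s → ∀ (T : Sp) (p : Pj T S) (E : ∀ k, (T.F k).Ω → Prop)
      (hE : 0 < ul (T.pr E)), C (Sp.im p E) (s.im p E hE))
    (hne : ∃ (S : Sp) (s : Sys S m), C S s) (G : ℕ → Gg m) (Φ : ℕ → Fnl m) (M : ℝ)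
    (hM : ∀ q S s, (Φ q).f S s ≤ M) :
    ∃ (S : Sp) (s : Sys S m), C S s ∧ RobustI s ∧ RobustG G s ∧ (∀ q, RobF (Φ q) s) ∧
      ∀ (r : ℚ) (h0 : (0 : ℝ) < r) (h1 : (r : ℝ) ≤ 1), RobustI (trn s r h0 h1) ∧ RobustG G (trn s r h0 h1) ∧
        ∀ q, RobF (Φ q) (trn s r h0 h1) := by
  classical
  set d : ℕ → ℚ := fun q => Denumerable.ofNat ℚ q with hd
  have hds : ∀ c : ℚ, ∃ q, d q = c := fun c => ⟨_, Denumerable.ofNat_encode c⟩
  set Ψ : ℕ ⊕ ℕ → Fnl m := Sum.elim (fun q => if hq : (0 : ℝ) ≤ d q ∧ (d q : ℝ) ≤ 1 then icF hq.1 hq.2 else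
    icF zero_le_one le_rfl) Φ with hΨ
  have hΨM : ∀ q S s, (Ψ q).f S s ≤ max M m := by
    rintro (q | q) S s
    · show (if hq : (0 : ℝ) ≤ d q ∧ (d q : ℝ) ≤ 1 then icF hq.1 hq.2 else icF zero_le_one le_rfl : Fnl m).f S s ≤ _
      by_cases hq : (0 : ℝ) ≤ d q ∧ (d q : ℝ) ≤ 1
      · rw [dif_pos hq]
        exact (ic_le_m s hq.1 hq.2).trans (le_max_right _ _)
      · rw [dif_neg hq]
        exact (ic_le_m s zero_le_one le_rfl).trans (le_max_right _ _)
    · exact (hM q S s).trans (le_max_left _ _)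
  obtain ⟨S, s, hs, hG, hF, hT⟩ := exists_robust_trn C hC him hne G
    (fun q => Ψ ((Equiv.natSumNatEquivNat).symm q)) (max M m) (fun q S s => hΨM _ S s)
  have key : ∀ {S : Sp} (s : Sys S m), (∀ q, RobF (Ψ ((Equiv.natSumNatEquivNat).symm q)) s) →
      RobustI s ∧ ∀ q, RobF (Φ q) s := by
    intro S s h
    have h' : ∀ w, RobF (Ψ w) s := by
      intro w
      have := h (Equiv.natSumNatEquivNat w)
      rwa [Equiv.symm_apply_apply] at this
    refine ⟨robustI_of_rat fun c h0 h1 => ?_, fun q => h' (Sum.inr q)⟩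
    obtain ⟨q, hq⟩ := hds c
    have h2 := h' (Sum.inl q)
    have h3 : Ψ (Sum.inl q) = icF h0 h1 := by
      show (if hq : (0 : ℝ) ≤ d q ∧ (d q : ℝ) ≤ 1 then icF hq.1 hq.2 else icF zero_le_one le_rfl : Fnl m) = _
      subst hq
      rw [dif_pos ⟨h0, h1⟩]
    rw [h3] at h2
    exact h2
  refine ⟨S, s, hs, (key s hF).1, hG, (key s hF).2, fun r h0 h1 => ?_⟩
  obtain ⟨g1, g2⟩ := hT r h0 h1
  exact ⟨(key _ g2).1, g1, (key _ g2).2⟩

end

end Pool.Agent.Helper52.KP
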