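import Pool.Agent.Helper52.KP.Ic

/-! `i(c)` does not change if the space is extended (KAPPA (1.4) for the identity): labels of an extension are labels
of the space, labels of the space extend to labels of the extension. -/

namespace Pool.Agent.Helper52.KP

open Finset Filter Topology Pool.Agent.Helper69.RK Pool.Agent.Helper31.EC Pool.Agent.Helper31.EC.Sp
open Pool.Agent.Helper40.EL

noncomputable section

/-! ### finite level -/

/-- a label of an extension as a label of the space -/
def FLab.down {T F : FSp} (p : FPj T F) (hn : T.n = F.n) (l : FLab T) : FLab F where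
  T := l.T
  p := l.p.comp p
  hn := l.hn.trans hn
  V := l.V

section
variable {T F : FSp} (p : FPj T F) (hn : T.n = F.n)

theorem down_leak (l : FLab T) (x : FL F) : (FLab.down p hn l).leak x ≤ l.leak (p.map x) := by
  have h1 : (FLab.down p hn l).leak x = I l.v (l.p.comp p).top ((l.p.comp p).map x) := rfl
  have h2 : l.leak (p.map x) = I l.v l.p.top (l.p.map (p.map x)) := rfl
  rw [h1, h2, FPj.comp_map]
  exact I_mono_right ((FPj.comp_top_le l.p p).trans le_sup_left)

theorem down_info (l : FLab T) (x : FL F) : l.info - l.leak (p.map x) ≤ (FLab.down p hn l).info := by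
  have h1 : (FLab.down p hn l).info = I l.v (l.p.comp p).top ⊥ := rfl
  rw [l.info_eq_leak (p.map x), h1, ← FPj.comp_map]
  have h2 : I l.v ((l.p.comp p).map x) ⊥ ≤ I l.v (l.p.comp p).top ⊥ :=
    I_mono_right (((l.p.comp p).map_le_top x).trans le_sup_left)
  linarith

/-- the extension and a label of the space, conditionally independent given the space -/
def upAm (l : FLab F) : FAm T l.T where
  α := F.Ω
  f := p.π
  g := l.p.π
  law := by
    intro a
    have h1 : ms T.μ p.π a = push p.π T.μ a := (push_ind _ _ _).symm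
    have h2 : ms l.T.μ l.p.π a = push l.p.π l.T.μ a := (push_ind _ _ _).symm
    rw [h1, h2, p.law, l.p.law]
  Zr := F.Z
  hZ1 := p.hZ
  hZ2 := l.p.hZ

/-- a label of the space as a label of the extension -/
def upF (l : FLab F) : FLab T where
  T := (upAm p l).sp
  p := (upAm p l).p1
  hn := rfl
  V := Setoid.comap (upAm p l).p2.π l.V

theorem upF_v (l : FLab F) : (upF p l).v = (upAm p l).p2.map l.v := rfl

theorem upAm_top (l : FLab F) : (upAm p l).p1.map p.top = (upAm p l).p2.map l.p.top := (upAm p l).common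

theorem upAm_map (l : FLab F) (x : FL F) : (upAm p l).p1.map (p.map x) = (upAm p l).p2.map (l.p.map x) := by
  induction x using fc_ind with | _ A
  apply le_antisymm
  · apply fc_le
    intro w w' h h' _ e
    have a : p.π w.1 = l.p.π w.2 := ((upAm p l).supp w h).1
    have a' : p.π w'.1 = l.p.π w'.2 := ((upAm p l).supp w' h').1
    have e' : A (l.p.π w.2) (l.p.π w'.2) := e
    show A (p.π w.1) (p.π w'.1)
    rw [a, a']; exact e'
  · apply fc_le
    intro w w' h h' _ e
    have a : p.π w.1 = l.p.π w.2 := ((upAm p l).supp w h).1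
    have a' : p.π w'.1 = l.p.π w'.2 := ((upAm p l).supp w' h').1
    have e' : A (p.π w.1) (p.π w'.1) := e
    show A (l.p.π w.2) (l.p.π w'.2)
    rw [← a, ← a']; exact e'

theorem p1_top_fc (l : FLab F) : (upAm p l).p1.top = (upAm p l).p1.map (fc (Setoid.ker (fun ω : T.Ω => ω))) := by
  apply le_antisymm
  · apply fc_le
    intro w w' _ _ _ e
    have e' : (upAm p l).p1.π w = (upAm p l).p1.π w' := e
    exact e'
  · exact FPj.map_le_top _ _

theorem upF_indep (l : FLab F) (y : FL l.T) : I ((upAm p l).p2.map y) (upAm p l).p1.top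
    ((upAm p l).p2.map l.p.top) = 0 := by
  rw [p1_top_fc, I_comm, ← upAm_top]
  exact (upAm p l).indep _ _

/-- leaks do not change -/
theorem upF_leak (l : FLab F) (x : FL F) : (upF p l).leak (p.map x) = l.leak x := by
  have h1 : (upF p l).leak (p.map x) = I ((upAm p l).p2.map l.v) (upAm p l).p1.top ((upAm p l).p1.map (p.map x)) := rfl
  have h2 : l.leak x = I ((upAm p l).p2.map l.v) ((upAm p l).p2.map l.p.top) ((upAm p l).p2.map (l.p.map x)) :=
    ((upAm p l).p2.I_map _ _ _).symm
  rw [h1, h2, upAm_map]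
  have h3 : (upAm p l).p2.map l.p.top ≤ (upAm p l).p1.top := by
    rw [← upAm_top]
    exact FPj.map_le_top _ _
  have h4 : (upAm p l).p2.map (l.p.map x) ≤ (upAm p l).p2.map l.p.top := FPj.map_mono _ (l.p.map_le_top x)
  have h5 : I ((upAm p l).p2.map l.v) ((upAm p l).p2.map l.p.top ⊔ (upAm p l).p1.top) ((upAm p l).p2.map (l.p.map x)) =
      I ((upAm p l).p2.map l.v) ((upAm p l).p2.map l.p.top) ((upAm p l).p2.map (l.p.map x)) +
      I ((upAm p l).p2.map l.v) (upAm p l).p1.top ((upAm p l).p2.map l.p.top ⊔ (upAm p l).p2.map (l.p.map x)) :=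
    I_chain_right _ _ _ _
  rw [sup_eq_right.mpr h3, sup_eq_left.mpr h4, upF_indep p l l.v, add_zero] at h5
  exact h5

theorem upF_info (l : FLab F) : (upF p l).info = l.info := by
  rw [← FLab.leak_bot, ← FLab.leak_bot, ← upF_leak p l ⊥, p.map_bot]

end

/-! ### spaces -/

/-- the finite projections of a projection -/
def fpj {T S : Sp} (p : Pj T S) (k : ℕ) : FPj (T.F k) (S.F k) := ⟨p.π k, p.law k, p.hZ k⟩

/-- partitions of the space as partitions of the extension -/
def pmap {T S : Sp} (p : Pj T S) (A : Part S) : Part T := fun k => (fpj p k).map (A k)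

section
variable {T S : Sp} (p : Pj T S)

/-- labels of an extension as labels of the space -/
def ldown (l : Lab T) : Lab S := fun k => FLab.down (fpj p k) (p.hn k) (l k)

/-- labels of the space as labels of an extension -/
def lup (l : Lab S) : Lab T := fun k => upF (fpj p k) (l k)

include p in
theorem nul_ext {f : ℕ → ℝ} : Nul T f ↔ Nul S f := by
  unfold Nul
  have h1 : (fun k => f k / (T.F k).n) = fun k => f k / (S.F k).n := by
    funext k
    rw [p.hn k]
  rw [h1]

theorem ldown_DM {l : Lab T} {A B : Part S} (hl : l.DM (pmap p A) (pmap p B)) : (ldown p l).DM A B := by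
  constructor
  · exact Nul.of_le ((nul_ext p).mp hl.1) (Eventually.of_forall fun k => FLab.leak_nonneg _ _)
      (Eventually.of_forall fun k => down_leak (fpj p k) (p.hn k) (l k) (A k))
  · exact Nul.of_le ((nul_ext p).mp hl.2) (Eventually.of_forall fun k => FLab.leak_nonneg _ _)
      (Eventually.of_forall fun k => down_leak (fpj p k) (p.hn k) (l k) (B k))

theorem lup_DM {l : Lab S} {A B : Part S} (hl : l.DM A B) : (lup p l).DM (pmap p A) (pmap p B) := by
  constructor
  · have h1 : (fun k => (lup p l k).leak (pmap p A k)) = fun k => (l k).leak (A k) := by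
      funext k
      exact upF_leak (fpj p k) (l k) (A k)
    rw [h1]
    exact (nul_ext p).mpr hl.1
  · have h1 : (fun k => (lup p l k).leak (pmap p B k)) = fun k => (l k).leak (B k) := by
      funext k
      exact upF_leak (fpj p k) (l k) (B k)
    rw [h1]
    exact (nul_ext p).mpr hl.2

theorem lup_info (l : Lab S) : (lup p l).info = l.info := by
  unfold Lab.info
  have h1 : (fun k => (lup p l k).info / (T.F k).n) = fun k => (l k).info / (S.F k).n := by
    funext k
    rw [p.hn k]
    exact congrArg (· / (S.F k).n) (upF_info (fpj p k) (l k))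
  rw [h1]

theorem ldown_info {l : Lab T} {A B : Part S} (hl : l.DM (pmap p A) (pmap p B)) (hA : A.Bd)
    (hA' : (pmap p A).Bd) : l.info ≤ (ldown p l).info := by
  have h1 := hl.ub hA'
  have h2 := (ldown_DM p hl).ub hA
  have h3 : UB (fun k => (l k).leak (pmap p A k) / (T.F k).n) := UB_of_tendsto hl.1
  have h4 : ul (fun k => (l k).info / (T.F k).n - (l k).leak (pmap p A k) / (T.F k).n) = l.info := by
    rw [ul_sub h1 h3, ul_eq hl.1, sub_zero]
    rfl
  rw [← h4]
  apply ul_mono (h1.sub h3) h2
  refine Eventually.of_forall fun k => ?_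
  rw [← sub_div, p.hn k]
  exact div_le_div_of_nonneg_right (down_info (fpj p k) (p.hn k) (l k) (A k)) (S.F k).pos.le

end

section
variable {T S : Sp} (p : Pj T S) {m : ℕ} (s : Sys S m)

theorem pmap_pA (c : ℝ) : pmap p (pA s c) = pA (s.pull p) c := by
  funext k
  have h1 : ∀ (r : ℝ) (q : ℕ) (y : S.VV q), Setoid.comap (p.π k) (Setoid.ker (y.cellv r k)) =
      Setoid.ker ((p.vv y).cellv r k) := by
    intro r q y
    have e1 : S.dl r k = T.dl r k := by
      unfold Sp.dl
      rw [p.hn k]
    apply Setoid.ext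
    intro ω ω'
    show y.cellv r k (p.π k ω) = y.cellv r k (p.π k ω') ↔ (p.vv y).cellv r k ω = (p.vv y).cellv r k ω'
    have e2 : ∀ w, (p.vv y).cellv r k w = y.cellv r k (p.π k w) := by
      intro w
      show Sp.cell (T.dl r k) (y.v k (p.π k w)) = Sp.cell (S.dl r k) (y.v k (p.π k w))
      rw [e1]
    rw [e2, e2]
  show fc (Setoid.comap (p.π k) ((Setoid.ker (s.a.cellv 1 k) ⊓ Setoid.ker (s.x.cellv 1 k)) ⊓
    Setoid.ker (s.t.cellv c k))) = fc ((Setoid.ker ((p.vv s.a).cellv 1 k) ⊓ Setoid.ker ((p.vv s.x).cellv 1 k)) ⊓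
    Setoid.ker ((p.vv s.t).cellv c k))
  rw [← h1, ← h1, ← h1]
  rfl

theorem pmap_pB : pmap p (pB s) = pB (s.pull p) := by
  funext k
  have h1 : ∀ (r : ℝ) (q : ℕ) (y : S.VV q), Setoid.comap (p.π k) (Setoid.ker (y.cellv r k)) =
      Setoid.ker ((p.vv y).cellv r k) := by
    intro r q y
    have e1 : S.dl r k = T.dl r k := by
      unfold Sp.dl
      rw [p.hn k]
    apply Setoid.ext
    intro ω ω'
    show y.cellv r k (p.π k ω) = y.cellv r k (p.π k ω') ↔ (p.vv y).cellv r k ω = (p.vv y).cellv r k ω'
    have e2 : ∀ w, (p.vv y).cellv r k w = y.cellv r k (p.π k w) := by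
      intro w
      show Sp.cell (T.dl r k) (y.v k (p.π k w)) = Sp.cell (S.dl r k) (y.v k (p.π k w))
      rw [e1]
    rw [e2, e2]
  show fc (Setoid.comap (p.π k) (Setoid.ker (s.P.cellv 1 k) ⊓ Setoid.ker (s.t.cellv 1 k))) =
    fc (Setoid.ker ((p.vv s.P).cellv 1 k) ⊓ Setoid.ker ((p.vv s.t).cellv 1 k))
  rw [← h1, ← h1]
  rfl

/-- (1.4): `i(c)` IS INVARIANT UNDER EXTENSIONS -/
theorem ic_pull (c : ℝ) : ic (s.pull p) c = ic s c := by
  apply le_antisymm
  · obtain ⟨l, hl, hi⟩ := exists_kappa (s.pull p) c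
    have h1 : l.DM (pmap p (pA s c)) (pmap p (pB s)) := by
      rw [pmap_pA, pmap_pB]; exact hl.1
    have h2 : (pmap p (pA s c)).Bd := by
      rw [pmap_pA]; exact pA_Bd _ _
    have h3 := ldown_info p h1 (pA_Bd s c) h2
    have h4 := le_ic s (ldown_DM p h1)
    rw [hi]
    linarith
  · obtain ⟨l, hl, hi⟩ := exists_kappa s c
    have h1 := lup_DM p hl.1
    rw [pmap_pA, pmap_pB] at h1
    have h4 := le_ic (s.pull p) h1
    rw [lup_info] at h4
    rw [hi]
    exact h4

/-- maximal labels stay maximal in extensions -/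
theorem lup_IsMax {l : Lab S} {c : ℝ} (hl : l.IsMax (pA s c) (pB s)) :
    (lup p l).IsMax (pA (s.pull p) c) (pB (s.pull p)) := by
  have h1 := lup_DM p hl.1
  rw [pmap_pA, pmap_pB] at h1
  rw [IsMax_iff_ic (s.pull p) h1, ic_pull, lup_info]
  exact IsMax_ic s hl

end

end

end Pool.Agent.Helper52.KP
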