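import Pool.Agent.Helper31.EC.RobS

/-! Glueing of labels of the two parts of a partition (KAPPA (3.2), reverse inequality), finite level. `p` is an
extension `T` of the finite space `F`, `E` an event of `T`; the pieces are labels of `FSp.im p E` and of
`FSp.im p (not E)`. -/

namespace Pool.Agent.Helper52.KP

open Finset Filter Topology Pool.Agent.Helper69.RK Pool.Agent.Helper31.EC Pool.Agent.Helper31.EC.Sp
open Pool.Agent.Helper40.EL

noncomputable section

theorem ab_le {g p a b : ℝ} (h : |g - (p * a + (1 - p) * b)| ≤ 1) :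
    g ≤ p * a + (1 - p) * b + 1 ∧ p * a + (1 - p) * b - 1 ≤ g := by
  rw [abs_le] at h
  exact ⟨by linarith [h.2], by linarith [h.1]⟩

theorem ab_le' {g p a b : ℝ} (h : |g - (p * a + (1 - p) * b)| ≤ 1) (p0 : 0 ≤ p) (p1 : p ≤ 1) (a0 : 0 ≤ a)
    (b0 : 0 ≤ b) : g ≤ a + b + 1 := by
  have h1 := (ab_le h).1
  have h2 : p * a ≤ 1 * a := mul_le_mul_of_nonneg_right p1 a0
  have h3 : (1 - p) * b ≤ 1 * b := mul_le_mul_of_nonneg_right (by linarith) b0
  linarith

theorem dv1 (p a b n : ℝ) : p * (a / n) + (1 - p) * (b / n) - 1 / n = (p * a + (1 - p) * b - 1) / n := by ring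

theorem dv2 (p a b n : ℝ) : (p * a + (1 - p) * b + 1) / n = p * (a / n) + (1 - p) * (b / n) + 1 / n := by ring

/-- information of partitions, in bits -/
def fI (F : FSp) (A B C : Setoid F.Ω) : ℝ := F.e A (C ⊓ F.Z) - F.e A (B ⊓ C ⊓ F.Z)

theorem I_fc (F : FSp) (A B C : Setoid F.Ω) : I (fc A : FL F) (fc B) (fc C) = fI F A B C := by
  rw [I_eq, ← fc_inf, h_fc, h_fc]
  rfl

theorem split_abs {p a b a' b' x y : ℝ} (h1 : p * a + (1 - p) * b ≤ x) (h2 : x ≤ p * a + (1 - p) * b + 1)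
    (h3 : p * a' + (1 - p) * b' ≤ y) (h4 : y ≤ p * a' + (1 - p) * b' + 1) :
    |(x - y) - (p * (a - a') + (1 - p) * (b - b'))| ≤ 1 := by
  have e : p * (a - a') + (1 - p) * (b - b') = (p * a + (1 - p) * b) - (p * a' + (1 - p) * b') := by ring
  rw [e, abs_le]
  constructor
  · linarith
  · linarith

/-- conditioning on an event costs one bit -/
theorem fI_split (F : FSp) (E : F.Ω → Prop) (A B C : Setoid F.Ω) :
    |fI F A B C - (F.pb E * fI (F.rest E) A B C + (1 - F.pb E) * fI (F.rest (fun ω => ¬ E ω)) A B C)| ≤ 1 := by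
  obtain ⟨h1, h2⟩ := F.e_split E A (C ⊓ F.Z)
  obtain ⟨h3, h4⟩ := F.e_split E A (B ⊓ C ⊓ F.Z)
  exact split_abs h1 h2 h3 h4

theorem fI_pj {T G : FSp} (q : FPj T G) (A B C : Setoid G.Ω) (A' B' C' : Setoid T.Ω)
    (hA : Setoid.comap q.π A = A') (hB : Setoid.comap q.π B = B') (hC : Setoid.comap q.π C = C') :
    fI T A' B' C' = fI G A B C := by
  subst hA hB hC
  unfold fI
  have h1 := q.e_comap_base A C
  have h2 := q.e_comap_base A (B ⊓ C)
  rw [← h1, ← h2]
  rfl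

theorem push_scale {Ω Ω' : Type} [Fintype Ω] [Fintype Ω'] (π : Ω' → Ω) (μ : Ω' → ℝ) (c : ℝ) (ω : Ω) :
    ∑ a, e1_ind (π a = ω) * (c * μ a) = c * push π μ ω := by
  rw [push_ind, Finset.mul_sum]
  apply Finset.sum_congr rfl
  intro w _
  ring

theorem pb_restμ (F : FSp) (E : F.Ω → Prop) (ω : F.Ω) : F.pb E * F.restμ E ω = res F.μ E ω := by
  by_cases h : F.pb E = 0
  · rw [h, zero_mul, F.res_zero_of_pb E h]
  · rw [F.restμ_eq E h]
    show F.pb E * ((F.pb E)⁻¹ * res F.μ E ω) = _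
    rw [← mul_assoc, mul_inv_cancel₀ h, one_mul]

theorem pb_not (F : FSp) (E : F.Ω → Prop) : F.pb (fun ω => ¬ E ω) = 1 - F.pb E := by
  have := F.pb_add_compl E
  linarith

theorem leak_fc {F : FSp} (l : FLab F) (A : Setoid F.Ω) :
    l.leak (fc A) = fI l.T l.V (Setoid.ker l.p.π) (Setoid.comap l.p.π A) := by
  rw [← I_fc]
  rfl

section
variable {T F : FSp} (p : FPj T F) (E : T.Ω → Prop)
variable (l1 : FLab (FSp.im p E)) (l2 : FLab (FSp.im p (fun ω => ¬ E ω)))

/-- the projection of the glued space -/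
def gπ : l1.T.Ω ⊕ l2.T.Ω → F.Ω := Sum.elim l1.p.π l2.p.π

/-- the weights of the glued space -/
def gμ : l1.T.Ω ⊕ l2.T.Ω → ℝ := Sum.elim (fun ω => T.pb E * l1.T.μ ω) (fun ω => (1 - T.pb E) * l2.T.μ ω)

/-- the glued space -/
def gT : FSp where
  Ω := l1.T.Ω ⊕ l2.T.Ω
  ft := inferInstance
  μ := gμ p E l1 l2
  nn := by
    intro w
    rcases w with a | b
    · exact mul_nonneg (T.pb_nonneg E) (l1.T.nn a)
    · exact mul_nonneg (by have := T.pb_le_one E; linarith) (l2.T.nn b)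
  ms := by
    have e1 : ∑ a, l1.T.μ a = 1 := l1.T.ms
    have e2 : ∑ a, l2.T.μ a = 1 := l2.T.ms
    have e0 : ∑ w, gμ p E l1 l2 w = ∑ a, T.pb E * l1.T.μ a + ∑ a, (1 - T.pb E) * l2.T.μ a :=
      Fintype.sum_sum_type _
    refine e0.trans ?_
    rw [← Finset.mul_sum, ← Finset.mul_sum, e1, e2]
    ring
  Z := Setoid.comap (gπ p E l1 l2) F.Z
  n := F.n
  pos := F.pos

theorem gT_law : push (gπ p E l1 l2) (gμ p E l1 l2) = F.μ := by
  funext ω
  rw [push_ind]
  have e0 : ∑ w, e1_ind (gπ p E l1 l2 w = ω) * gμ p E l1 l2 w = ∑ a, e1_ind (l1.p.π a = ω) * (T.pb E * l1.T.μ a) +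
      ∑ a, e1_ind (l2.p.π a = ω) * ((1 - T.pb E) * l2.T.μ a) := Fintype.sum_sum_type _
  refine e0.trans ?_
  have e1 : ∑ a, e1_ind (l1.p.π a = ω) * (T.pb E * l1.T.μ a) = push p.π (res T.μ E) ω := by
    have h1 := (push_scale l1.p.π l1.T.μ (T.pb E) ω).trans (congrArg (T.pb E * ·) (congrFun l1.p.law ω))
    refine h1.trans ?_
    show T.pb E * push p.π (T.restμ E) ω = _
    rw [← push_scale, push_ind]
    apply Finset.sum_congr rfl
    intro w _
    rw [pb_restμ]
  have e2 : ∑ a, e1_ind (l2.p.π a = ω) * ((1 - T.pb E) * l2.T.μ a) = push p.π (res T.μ (fun ω => ¬ E ω)) ω := by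
    have h1 := (push_scale l2.p.π l2.T.μ (1 - T.pb E) ω).trans
      (congrArg ((1 - T.pb E) * ·) (congrFun l2.p.law ω))
    refine h1.trans ?_
    show (1 - T.pb E) * push p.π (T.restμ (fun ω => ¬ E ω)) ω = _
    rw [← pb_not, ← push_scale, push_ind]
    apply Finset.sum_congr rfl
    intro w _
    rw [pb_restμ]
  refine (congrArg₂ (· + ·) e1 e2).trans ?_
  show push p.π (res T.μ E) ω + push p.π (res T.μ (fun ω => ¬ E ω)) ω = F.μ ω
  rw [← congrFun p.law ω, push_ind, push_ind, push_ind, ← Finset.sum_add_distrib]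
  apply Finset.sum_congr rfl
  intro w _
  rw [← mul_add]
  congr 1
  by_cases hE : E w
  · rw [res_pos _ _ _ hE, res_neg T.μ (fun ω => ¬ E ω) _ (fun h => h hE), add_zero]
  · rw [res_neg _ _ _ hE, res_pos T.μ (fun ω => ¬ E ω) _ hE, zero_add]

/-- the label `(j, V_j)` -/
def glue : FLab F where
  T := gT p E l1 l2
  p := { π := gπ p E l1 l2
         law := gT_law p E l1 l2
         hZ := fun _ _ _ _ => Iff.rfl }
  hn := rfl
  V := Setoid.ker (Sum.map (Quotient.mk l1.V) (Quotient.mk l2.V))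

/-- the event of the first part -/
def gE : l1.T.Ω ⊕ l2.T.Ω → Prop := fun w => Sum.isLeft w = true

theorem gE_inl (a : l1.T.Ω) : gE p E l1 l2 (Sum.inl a) := rfl

theorem gE_inr (a : l2.T.Ω) : ¬ gE p E l1 l2 (Sum.inr a) := by
  show ¬ Sum.isLeft (Sum.inr a : l1.T.Ω ⊕ l2.T.Ω) = true
  simp

/-- the event of the first part in the glued space -/
def gD : (gT p E l1 l2).Ω → Prop := gE p E l1 l2

theorem gE_mass : ∑ w, res (gμ p E l1 l2) (gE p E l1 l2) w = T.pb E := by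
  have e1 : ∑ a, l1.T.μ a = 1 := l1.T.ms
  rw [Fintype.sum_sum_type]
  have h1 : ∀ a : l1.T.Ω, res (gμ p E l1 l2) (gE p E l1 l2) (Sum.inl a) = T.pb E * l1.T.μ a := by
    intro a
    rw [res_pos _ _ _ (gE_inl p E l1 l2 a)]
    rfl
  have h2 : ∀ a : l2.T.Ω, res (gμ p E l1 l2) (gE p E l1 l2) (Sum.inr a) = 0 := by
    intro a
    rw [res_neg _ _ _ (gE_inr p E l1 l2 a)]
  rw [Finset.sum_congr rfl (fun a _ => h1 a), Finset.sum_congr rfl (fun a _ => h2 a), ← Finset.mul_sum, e1]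
  simp

theorem gD_pb : (gT p E l1 l2).pb (gD p E l1 l2) = T.pb E := gE_mass p E l1 l2

theorem inl_law (h : T.pb E ≠ 0) : push (fun a => (Sum.inl a : l1.T.Ω ⊕ l2.T.Ω)) l1.T.μ =
    fun w => (T.pb E)⁻¹ * res (gμ p E l1 l2) (gE p E l1 l2) w := by
  funext w
  rw [push_ind]
  rcases w with b | b
  · rw [Finset.sum_eq_single b]
    · rw [e1_ind_pos rfl, one_mul, res_pos _ _ _ (gE_inl p E l1 l2 b)]
      show l1.T.μ b = (T.pb E)⁻¹ * (T.pb E * l1.T.μ b)
      rw [← mul_assoc, inv_mul_cancel₀ h, one_mul]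
    · intro c _ hc
      rw [e1_ind_neg (fun h => hc (Sum.inl_injective h)), zero_mul]
    · intro h
      exact absurd (Finset.mem_univ _) h
  · rw [res_neg _ _ _ (gE_inr p E l1 l2 b), mul_zero]
    apply Finset.sum_eq_zero
    intro a _
    rw [e1_ind_neg (by simp), zero_mul]

theorem inr_law (h : 1 - T.pb E ≠ 0) : push (fun a => (Sum.inr a : l1.T.Ω ⊕ l2.T.Ω)) l2.T.μ =
    fun w => (1 - T.pb E)⁻¹ * res (gμ p E l1 l2) (fun w => ¬ gE p E l1 l2 w) w := by
  funext w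
  rw [push_ind]
  rcases w with b | b
  · rw [res_neg (gμ p E l1 l2) (fun w => ¬ gE p E l1 l2 w) _ (fun h => h (gE_inl p E l1 l2 b)), mul_zero]
    apply Finset.sum_eq_zero
    intro a _
    rw [e1_ind_neg (by simp), zero_mul]
  · rw [Finset.sum_eq_single b]
    · rw [e1_ind_pos rfl, one_mul, res_pos (gμ p E l1 l2) (fun w => ¬ gE p E l1 l2 w) _ (gE_inr p E l1 l2 b)]
      show l2.T.μ b = (1 - T.pb E)⁻¹ * ((1 - T.pb E) * l2.T.μ b)
      rw [← mul_assoc, inv_mul_cancel₀ h, one_mul]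
    · intro c _ hc
      rw [e1_ind_neg (fun h => hc (Sum.inr_injective h)), zero_mul]
    · intro h
      exact absurd (Finset.mem_univ _) h

/-- the first part of the glued space -/
def inlPj (h : T.pb E ≠ 0) : FPj l1.T ((gT p E l1 l2).rest (gD p E l1 l2)) where
  π := fun a => (Sum.inl a : l1.T.Ω ⊕ l2.T.Ω)
  law := by
    have h' : (gT p E l1 l2).pb (gD p E l1 l2) ≠ 0 := by rw [gD_pb]; exact h
    have h2 := (gT p E l1 l2).restμ_eq _ h'
    rw [gD_pb] at h2
    exact (inl_law p E l1 l2 h).trans h2.symm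
  hZ := fun a a' h h' => l1.p.hZ a a' h h'

/-- the second part of the glued space -/
def inrPj (h : 1 - T.pb E ≠ 0) : FPj l2.T ((gT p E l1 l2).rest (fun w => ¬ gD p E l1 l2 w)) where
  π := fun a => (Sum.inr a : l1.T.Ω ⊕ l2.T.Ω)
  law := by
    have h' : (gT p E l1 l2).pb (fun w => ¬ gD p E l1 l2 w) ≠ 0 := by rw [pb_not, gD_pb]; exact h
    have h2 := (gT p E l1 l2).restμ_eq _ h'
    rw [pb_not, gD_pb] at h2
    exact (inr_law p E l1 l2 h).trans h2.symm
  hZ := fun a a' h h' => l2.p.hZ a a' h h'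

/-- leaks of glued labels -/
theorem glue_leak (x : FL F) :
    |(glue p E l1 l2).leak x - (T.pb E * l1.leak (FSp.imap p E x) +
      (1 - T.pb E) * l2.leak (FSp.imap p (fun ω => ¬ E ω) x))| ≤ 1 := by
  induction x using fc_ind with | _ A
  have q0 := leak_fc (glue p E l1 l2) A
  have q1 : l1.leak (FSp.imap p E (fc A)) = fI l1.T l1.V (Setoid.ker l1.p.π) (Setoid.comap l1.p.π A) := leak_fc l1 A
  have q2 : l2.leak (FSp.imap p (fun ω => ¬ E ω) (fc A)) =
      fI l2.T l2.V (Setoid.ker l2.p.π) (Setoid.comap l2.p.π A) := leak_fc l2 A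
  rw [q0, q1, q2]
  have h1 := fI_split (gT p E l1 l2) (gD p E l1 l2) (glue p E l1 l2).V (Setoid.ker (glue p E l1 l2).p.π)
    (Setoid.comap (glue p E l1 l2).p.π A)
  rw [gD_pb] at h1
  have e1 : T.pb E * fI ((gT p E l1 l2).rest (gD p E l1 l2)) (glue p E l1 l2).V
      (Setoid.ker (glue p E l1 l2).p.π) (Setoid.comap (glue p E l1 l2).p.π A) =
      T.pb E * fI l1.T l1.V (Setoid.ker l1.p.π) (Setoid.comap l1.p.π A) := by
    by_cases h : T.pb E = 0
    · rw [h, zero_mul, zero_mul]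
    · congr 1
      symm
      apply fI_pj (inlPj p E l1 l2 h)
      · apply Setoid.ext
        intro a b
        show Sum.map (Quotient.mk l1.V) (Quotient.mk l2.V) (Sum.inl a) =
          Sum.map (Quotient.mk l1.V) (Quotient.mk l2.V) (Sum.inl b) ↔ l1.V a b
        rw [Sum.map_inl, Sum.map_inl, Sum.inl.injEq]
        exact Quotient.eq (r := l1.V)
      · rfl
      · rfl
  have e2 : (1 - T.pb E) * fI ((gT p E l1 l2).rest (fun w => ¬ gD p E l1 l2 w)) (glue p E l1 l2).V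
      (Setoid.ker (glue p E l1 l2).p.π) (Setoid.comap (glue p E l1 l2).p.π A) =
      (1 - T.pb E) * fI l2.T l2.V (Setoid.ker l2.p.π) (Setoid.comap l2.p.π A) := by
    by_cases h : 1 - T.pb E = 0
    · rw [h, zero_mul, zero_mul]
    · congr 1
      symm
      apply fI_pj (inrPj p E l1 l2 h)
      · apply Setoid.ext
        intro a b
        show Sum.map (Quotient.mk l1.V) (Quotient.mk l2.V) (Sum.inr a) =
          Sum.map (Quotient.mk l1.V) (Quotient.mk l2.V) (Sum.inr b) ↔ l2.V a b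
        rw [Sum.map_inr, Sum.map_inr, Sum.inr.injEq]
        exact Quotient.eq (r := l2.V)
      · rfl
      · rfl
  exact Eq.mp (congrArg (fun t => |fI (gT p E l1 l2) (glue p E l1 l2).V (Setoid.ker (glue p E l1 l2).p.π)
    (Setoid.comap (glue p E l1 l2).p.π A) - t| ≤ 1) (congrArg₂ (· + ·) e1 e2)) h1

theorem glue_info :
    |(glue p E l1 l2).info - (T.pb E * l1.info + (1 - T.pb E) * l2.info)| ≤ 1 := by
  have h1 := glue_leak p E l1 l2 ⊥
  rw [FSp.imap_bot, FSp.imap_bot, FLab.leak_bot, FLab.leak_bot, FLab.leak_bot] at h1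
  exact h1

end

end

end Pool.Agent.Helper52.KP

namespace Pool.Agent.Helper40.EL

open Finset Filter Topology Pool.Agent.Helper69.RK Pool.Agent.Helper31.EC Pool.Agent.Helper52.KP

noncomputable section

namespace Lab

variable {T S : Sp} (p : Pj T S) (E : ∀ k, (T.F k).Ω → Prop)

/-- GLUEING: the label `(j, V_j)` -/
def glue (l₁ : Lab (Sp.im p E)) (l₂ : Lab (Sp.im p (fun k ω => ¬ E k ω))) : Lab S :=
  fun k => Pool.Agent.Helper52.KP.glue (p.fp k) (E k) (l₁ k) (l₂ k)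

variable {p E} {l₁ : Lab (Sp.im p E)} {l₂ : Lab (Sp.im p (fun k ω => ¬ E k ω))} {A B : Part S}

/-- glued double Markov labels are double Markov -/
theorem DM.glue (h₁ : l₁.DM (A.im p E) (B.im p E))
    (h₂ : l₂.DM (A.im p (fun k ω => ¬ E k ω)) (B.im p (fun k ω => ¬ E k ω))) : (Lab.glue p E l₁ l₂).DM A B := by
  have key : ∀ A : Part S, Nul (Sp.im p E) (fun k => (l₁ k).leak (A.im p E k)) →
      Nul (Sp.im p (fun k ω => ¬ E k ω)) (fun k => (l₂ k).leak (A.im p (fun k ω => ¬ E k ω) k)) →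
      Nul S (fun k => (Lab.glue p E l₁ l₂ k).leak (A k)) := by
    intro A a₁ a₂
    have b₁ : Nul S (fun k => (l₁ k).leak (A.im p E k)) := a₁
    have b₂ : Nul S (fun k => (l₂ k).leak (A.im p (fun k ω => ¬ E k ω) k)) := a₂
    have b₃ := (b₁.add b₂).add (Nul.const S 1)
    apply b₃.of_le (Eventually.of_forall fun k => FLab.leak_nonneg _ _)
    refine Eventually.of_forall fun k => ?_
    exact ab_le' (glue_leak (p.fp k) (E k) (l₁ k) (l₂ k) (A k)) ((T.F k).pb_nonneg _) ((T.F k).pb_le_one _)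
      (FLab.leak_nonneg _ _) (FLab.leak_nonneg _ _)
  exact ⟨key A h₁.1 h₂.1, key B h₁.2 h₂.2⟩

/-- the information of the glued label is the average -/
theorem glue_info_eq (u₁ : UB (fun k => (l₁ k).info / (S.F k).n)) (u₂ : UB (fun k => (l₂ k).info / (S.F k).n)) :
    (Lab.glue p E l₁ l₂).info = ul (T.pr E) * l₁.info + (1 - ul (T.pr E)) * l₂.info := by
  have t : Tendsto (fun k => T.pr E k * ((l₁ k).info / (S.F k).n) + (1 - T.pr E k) * ((l₂ k).info / (S.F k).n)) UF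
      (𝓝 (ul (T.pr E) * l₁.info + (1 - ul (T.pr E)) * l₂.info)) :=
    ((ul_tendsto (Sp.UB_pr E)).mul (ul_tendsto u₁)).add
      (((ul_tendsto (Sp.UB_pr E)).const_sub 1).mul (ul_tendsto u₂))
  have t1 := t.add (S.div_n_tendsto 1)
  have t2 := t.sub (S.div_n_tendsto 1)
  rw [add_zero] at t1
  rw [sub_zero] at t2
  apply ul_eq
  refine tendsto_of_tendsto_of_tendsto_of_le_of_le t2 t1 (fun k => ?_) (fun k => ?_)
  · have h3 := div_le_div_of_nonneg_right (ab_le (glue_info (p.fp k) (E k) (l₁ k) (l₂ k))).2 (S.F k).pos.le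
    exact le_trans (le_of_eq (dv1 _ _ _ _)) h3
  · have h3 := div_le_div_of_nonneg_right (ab_le (glue_info (p.fp k) (E k) (l₁ k) (l₂ k))).1 (S.F k).pos.le
    exact le_trans h3 (le_of_eq (dv2 _ _ _ _))

end Lab

end

end Pool.Agent.Helper40.EL
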