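import Pool.Agent.Helper52.KP.Add

/-! AGREEMENT, finite part: two conditionally independent copies over a common variable which are related with
probability `p`: there is a function of the common variable which is related to the copy with probability at least
`p`. -/

namespace Pool.Agent.Helper40.EL

open Finset Filter Topology Pool.Agent.Helper69.RK Pool.Agent.Helper31.EC

noncomputable section

section
variable {Ω Ω' α : Type} [Fintype Ω] [Fintype Ω'] (μ : Ω → ℝ) (μ' : Ω' → ℝ) (f : Ω → α) (g : Ω' → α)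

omit [Fintype Ω] in
theorem res_ind (E : Ω → Prop) (ω : Ω) : res μ E ω = e1_ind (E ω) * μ ω := by
  by_cases h : E ω
  · rw [res_pos _ _ _ h, e1_ind_pos h, one_mul]
  · rw [res_neg _ _ _ h, e1_ind_neg h, zero_mul]

/-- the best value in a cell of the common variable -/
theorem agree_fin (h0 : ∀ ω, 0 ≤ μ ω) (h0' : ∀ ω, 0 ≤ μ' ω) (hl : ∀ a, ms μ f a = ms μ' g a) [Nonempty Ω']
    (R : Ω → Ω' → Prop) : ∃ c : α → Ω', (∀ ω, μ ω ≠ 0 → g (c (f ω)) = f ω ∧ μ' (c (f ω)) ≠ 0) ∧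
      ∑ w, res (amw μ μ' f g) (fun w => R w.1 w.2) w ≤ ∑ ω, res μ (fun ω => R ω (c (f ω))) ω := by
  classical
  set φ : Ω' → ℝ := fun y => ∑ ω, e1_ind (f ω = g y) * (e1_ind (R ω y) * μ ω) with hφ
  have hex : ∀ a : α, ∃ y : Ω', ((∃ y', g y' = a ∧ μ' y' ≠ 0) → g y = a ∧ μ' y ≠ 0) ∧
      ∀ y', g y' = a → μ' y' ≠ 0 → φ y' ≤ φ y := by
    intro a
    by_cases h : ∃ y', g y' = a ∧ μ' y' ≠ 0
    · obtain ⟨y', hy'⟩ := h
      obtain ⟨y, hy, hmax⟩ := Finset.exists_max_image (univ.filter fun y => g y = a ∧ μ' y ≠ 0) φ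
        ⟨y', Finset.mem_filter.mpr ⟨Finset.mem_univ _, hy'⟩⟩
      refine ⟨y, fun _ => (Finset.mem_filter.mp hy).2, fun z h1 h2 => ?_⟩
      exact hmax z (Finset.mem_filter.mpr ⟨Finset.mem_univ _, h1, h2⟩)
    · refine ⟨Classical.arbitrary Ω', fun h' => absurd h' h, fun z h1 h2 => absurd ⟨z, h1, h2⟩ h⟩
  choose c hc1 hc2 using hex
  have hms : ∀ ω, μ ω ≠ 0 → ∃ y, g y = f ω ∧ μ' y ≠ 0 := by
    intro ω hω
    by_contra hcon
    push Not at hcon
    have h1 : ms μ' g (f ω) = 0 := by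
      apply Finset.sum_eq_zero
      intro y _
      by_cases h2 : g y = f ω
      · rw [hcon y h2, mul_zero]
      · rw [e1_ind_neg h2, zero_mul]
    have h2 := ms_pos μ f h0 ω hω
    rw [hl, h1] at h2
    exact lt_irrefl _ h2
  refine ⟨c, fun ω hω => hc1 _ (hms ω hω), ?_⟩
  -- the left side
  have e1 : ∑ w, res (amw μ μ' f g) (fun w => R w.1 w.2) w = ∑ y, μ' y / ms μ f (g y) * φ y := by
    rw [Fintype.sum_prod_type_right]
    apply Finset.sum_congr rfl
    intro y _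
    rw [hφ]
    simp only
    rw [Finset.mul_sum]
    apply Finset.sum_congr rfl
    intro ω _
    rw [res_ind]
    unfold amw
    simp only
    by_cases h : f ω = g y
    · rw [e1_ind_pos h, h]; ring
    · rw [e1_ind_neg h]; ring
  have e2 : ∑ y, μ' y / ms μ f (g y) * φ y ≤ ∑ y, μ' y / ms μ f (g y) * φ (c (g y)) := by
    apply Finset.sum_le_sum
    intro y _
    by_cases h : μ' y = 0
    · rw [h, zero_div, zero_mul, zero_mul]
    · exact mul_le_mul_of_nonneg_left (hc2 (g y) y rfl h) (div_nonneg (h0' y) (ms_nonneg μ f h0 _))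
  have e3 : ∑ y, μ' y / ms μ f (g y) * φ (c (g y)) = ∑ ω, res μ (fun ω => R ω (c (f ω))) ω := by
    have e4 : ∀ y, μ' y / ms μ f (g y) * φ (c (g y)) =
        ∑ ω, e1_ind (g y = f ω) * μ' y * (e1_ind (R ω (c (f ω))) * μ ω / ms μ f (f ω)) := by
      intro y
      by_cases h : μ' y = 0
      · rw [h, zero_div, zero_mul]
        symm
        apply Finset.sum_eq_zero
        intro ω _
        ring
      · rw [hφ]
        simp only
        rw [Finset.mul_sum]
        apply Finset.sum_congr rfl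
        intro ω _
        have h1 := (hc1 (g y) ⟨y, rfl, h⟩).1
        rw [h1]
        by_cases h2 : f ω = g y
        · rw [e1_ind_pos h2, e1_ind_pos h2.symm, h2]; ring
        · have h3 : ¬ (g y = f ω) := fun e => h2 e.symm
          rw [e1_ind_neg h2, e1_ind_neg h3]; ring
    rw [Finset.sum_congr rfl (fun y _ => e4 y), Finset.sum_comm]
    apply Finset.sum_congr rfl
    intro ω _
    rw [← Finset.sum_mul]
    have e5 : ∑ y, e1_ind (g y = f ω) * μ' y = ms μ f (f ω) := (hl (f ω)).symm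
    rw [e5, res_ind]
    by_cases h : μ ω = 0
    · rw [h]; ring
    · have := (ms_pos μ f h0 ω h).ne'
      field_simp
  rw [e1, ← e3]
  exact e2

end

/-- agreement in an amalgam of finite spaces -/
theorem FAm.agree {W F : FSp} (D : FAm W F) (R : W.Ω → F.Ω → Prop) :
    ∃ c : D.α → F.Ω, (∀ ω, W.μ ω ≠ 0 → D.g (c (D.f ω)) = D.f ω ∧ F.μ (c (D.f ω)) ≠ 0) ∧
      D.sp.pb (fun w => R w.1 w.2) ≤ W.pb (fun ω => R ω (c (D.f ω))) := by
  have hne : Nonempty F.Ω := by
    by_contra hc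
    rw [not_nonempty_iff] at hc
    have := F.ms
    unfold mass at this
    rw [Finset.univ_eq_empty, Finset.sum_empty] at this
    exact zero_ne_one this
  exact agree_fin W.μ F.μ D.f D.g W.nn F.nn D.law R

/-- two copies of a space given a partition (and the base) -/
def FAm.self (F : FSp) (Y : Setoid F.Ω) : FAm F F where
  α := Quotient (Y ⊓ F.Z)
  f := Quotient.mk (Y ⊓ F.Z)
  g := Quotient.mk (Y ⊓ F.Z)
  law := fun _ => rfl
  Zr := Setoid.comap Quotient.out F.Z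
  hZ1 := fun ω ω' _ _ => by
    have h1 : (Y ⊓ F.Z) (Quotient.mk (Y ⊓ F.Z) ω).out ω := Quotient.mk_out ω
    have h2 : (Y ⊓ F.Z) (Quotient.mk (Y ⊓ F.Z) ω').out ω' := Quotient.mk_out ω'
    exact ⟨fun h => F.Z.trans (F.Z.trans h1.2 h) (F.Z.symm h2.2), fun h => F.Z.trans (F.Z.trans (F.Z.symm h1.2) h) h2.2⟩
  hZ2 := fun ω ω' _ _ => by
    have h1 : (Y ⊓ F.Z) (Quotient.mk (Y ⊓ F.Z) ω).out ω := Quotient.mk_out ω
    have h2 : (Y ⊓ F.Z) (Quotient.mk (Y ⊓ F.Z) ω').out ω' := Quotient.mk_out ω'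
    exact ⟨fun h => F.Z.trans (F.Z.trans h1.2 h) (F.Z.symm h2.2), fun h => F.Z.trans (F.Z.trans (F.Z.symm h1.2) h) h2.2⟩

theorem FAm.self_f (F : FSp) (Y : Setoid F.Ω) : (FAm.self F Y).f = (FAm.self F Y).g := rfl

theorem FAm.self_le (F : FSp) (Y : Setoid F.Ω) : (fc (Setoid.ker (FAm.self F Y).f) : FL F) ≤ fc Y := by
  apply fc_le
  intro ω ω' _ _ hZ hY
  show (FAm.self F Y).f ω = (FAm.self F Y).f ω'
  exact Quotient.sound ⟨hY, hZ⟩

/-- few values: entropy at most the logarithm of their number -/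
theorem h_le_log {F : FSp} (A B : Setoid F.Ω) (N : ℕ) (hN : ∀ ω, F.μ ω ≠ 0 →
    nvf F.μ (Quotient.mk A) (Quotient.mk (B ⊓ F.Z)) ω ≤ N) : h (fc A) (fc B) ≤ Real.logb 2 N := by
  rw [h_fc]
  have h1 := st_E3.1 F.Ω _ _ F.μ (Quotient.mk A) (Quotient.mk (B ⊓ F.Z)) (fun _ => (N : ℝ)) F.nn
    (fun ω hω => by exact_mod_cast hN ω hω)
  refine h1.trans (le_of_eq ?_)
  rw [← Finset.sum_mul]
  have h2 : ∑ ω, F.μ ω = 1 := F.ms
  rw [h2, one_mul]

end

end Pool.Agent.Helper40.EL
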