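import Pool.Agent.Helper31.EC.Ext
import Pool.Agent.Helper40.EL.D1

/-! Diagonals of systems along arbitrary lists of functionals and events; diagonals of labels; labels of diagonal
spaces (KAPPA (0.3), (2.4)). -/

namespace Pool.Agent.Helper52.KP

open Finset Filter Topology Pool.Agent.Helper69.RK Pool.Agent.Helper31.EC Pool.Agent.Helper31.EC.Sp
open Pool.Agent.Helper40.EL

noncomputable section

/-- GENERAL DIAGONALS OF SYSTEMS: the functionals and the events may depend on the sequence index `j` and on the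
index `k` in any way -/
theorem diagG {m : ℕ} (S : ℕ → Sp) (s : ∀ j, Sys (S j) m) (φ : ℕ → ℕ → ℕ → ℝ)
    (hφ : ∀ i j, UB (φ i j)) (E : ℕ → ℕ → ℕ → Prop) (hE : ∀ i j, ∀ᶠ k in UF, E i j k) :
    ∃ (J : ℕ → ℕ) (hn : Tendsto (fun k => ((S (J k)).F k).n) UF atTop) (u : Sys (dsp S J hn) m),
      Tendsto J UF atTop ∧
      (∀ i, Tendsto (fun k => φ i (J k) k - ul (φ i (J k))) UF (𝓝 0)) ∧
      (∀ i, ∀ᶠ k in UF, E i (J k) k) ∧ ∀ k, u.fin k = (s (J k)).fin k := by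
  choose Ka hKa hKa' using fun j => (s j).a.bd
  choose Kx hKx hKx' using fun j => (s j).x.bd
  choose Kt hKt hKt' using fun j => (s j).t.bd
  have hsub : ∀ (j : ℕ) (K : ℕ → ℝ), (S j).Sub K → ∀ᶠ k in UF, 0 ≤ K k ∧
      Real.logb 2 (K k + 2) / ((S j).F k).n ≤ 1 / ((j : ℝ) + 1) := by
    intro j K hK
    have h5 : (0 : ℝ) < 1 / ((j : ℝ) + 1) := by positivity
    filter_upwards [hK.1, hK.2.eventually (gt_mem_nhds h5)] with k a b using ⟨a, b.le⟩
  set G : ℕ → ℕ → ℕ → Prop := fun i j k => E i j k ∧ (j : ℝ) ≤ ((S j).F k).n ∧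
    ((0 ≤ Ka j k ∧ Real.logb 2 (Ka j k + 2) / ((S j).F k).n ≤ 1 / ((j : ℝ) + 1)) ∧
      ∀ ω, ((S j).F k).μ ω ≠ 0 → ∀ i, |(s j).a.v k ω i| ≤ Ka j k) ∧
    ((0 ≤ Kx j k ∧ Real.logb 2 (Kx j k + 2) / ((S j).F k).n ≤ 1 / ((j : ℝ) + 1)) ∧
      ∀ ω, ((S j).F k).μ ω ≠ 0 → ∀ i, |(s j).x.v k ω i| ≤ Kx j k) ∧
    ((0 ≤ Kt j k ∧ Real.logb 2 (Kt j k + 2) / ((S j).F k).n ≤ 1 / ((j : ℝ) + 1)) ∧
      ∀ ω, ((S j).F k).μ ω ≠ 0 → ∀ i, |(s j).t.v k ω i| ≤ Kt j k) with hG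
  have hGe : ∀ i j, ∀ᶠ k in UF, G i j k := by
    intro i j
    filter_upwards [hE i j, (S j).lim.eventually (eventually_ge_atTop (j : ℝ)), hsub j _ (hKa j), hKa' j,
      hsub j _ (hKx j), hKx' j, hsub j _ (hKt j), hKt' j] with k a b c d e f g l
    exact ⟨a, b, ⟨c, d⟩, ⟨e, f⟩, ⟨g, l⟩⟩
  set ψ : ℕ → ℕ → ℕ → ℝ := fun i j k => Nat.casesOn i
    (((s j).fin k).q (((s j).fin k).kt 1) (((s j).fin k).ka 1 ⊓ ((s j).fin k).kx 1)) (fun i => φ i j k) with hψ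
  have hψb : ∀ i j, UB (ψ i j) := by
    intro i j
    cases i with
    | zero => exact UB_rt ((s j).It 1) (Inf.sup ((s j).Ia 1) ((s j).Ix 1)).1
    | succ i => exact hφ i j
  obtain ⟨J, hJ, hJ1, hJ2⟩ := diag_in_place ψ G hψb hGe
  have hn : Tendsto (fun k => ((S (J k)).F k).n) UF atTop := by
    rw [tendsto_atTop]
    intro M
    filter_upwards [hJ2 0, hJ.eventually (eventually_ge_atTop ⌈M⌉₊)] with k a b
    have h1 : M ≤ (J k : ℝ) := (Nat.le_ceil M).trans (by exact_mod_cast b)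
    exact h1.trans a.2.1
  set T : Sp := dsp S J hn with hT
  have bA : ∀ᶠ k in UF, 0 ≤ Ka (J k) k ∧ Real.logb 2 (Ka (J k) k + 2) / ((S (J k)).F k).n ≤ 1 / ((J k : ℝ) + 1) ∧
      ∀ ω, ((S (J k)).F k).μ ω ≠ 0 → ∀ i, |(s (J k)).a.v k ω i| ≤ Ka (J k) k := by
    filter_upwards [hJ2 0] with k a
    exact ⟨a.2.2.1.1.1, a.2.2.1.1.2, a.2.2.1.2⟩
  have bX : ∀ᶠ k in UF, 0 ≤ Kx (J k) k ∧ Real.logb 2 (Kx (J k) k + 2) / ((S (J k)).F k).n ≤ 1 / ((J k : ℝ) + 1) ∧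
      ∀ ω, ((S (J k)).F k).μ ω ≠ 0 → ∀ i, |(s (J k)).x.v k ω i| ≤ Kx (J k) k := by
    filter_upwards [hJ2 0] with k a
    exact ⟨a.2.2.2.1.1.1, a.2.2.2.1.1.2, a.2.2.2.1.2⟩
  have bT : ∀ᶠ k in UF, 0 ≤ Kt (J k) k ∧ Real.logb 2 (Kt (J k) k + 2) / ((S (J k)).F k).n ≤ 1 / ((J k : ℝ) + 1) ∧
      ∀ ω, ((S (J k)).F k).μ ω ≠ 0 → ∀ i, |(s (J k)).t.v k ω i| ≤ Kt (J k) k := by
    filter_upwards [hJ2 0] with k a
    exact ⟨a.2.2.2.2.1.1, a.2.2.2.2.1.2, a.2.2.2.2.2⟩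
  set A : T.VV m := dvv S J hn (fun j => (s j).a) Ka hJ bA with hA
  set X : T.VV m := dvv S J hn (fun j => (s j).x) Kx hJ bX with hX
  set Tt : T.VV 1 := dvv S J hn (fun j => (s j).t) Kt hJ bT with hTt
  have hht : h (Tt.dg 1) (A.dg 1 ⊔ X.dg 1) = 1 := by
    have e1 : h (Tt.dg 1) (A.dg 1 ⊔ X.dg 1) = ul (fun k => ψ 0 (J k) k) := by
      have e2 : Tt.dg 1 = cl (Tt.bdd 1).toInf := io_eq _
      have e3 : A.dg 1 = cl (A.bdd 1).toInf := io_eq _
      have e4 : X.dg 1 = cl (X.bdd 1).toInf := io_eq _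
      rw [e2, e3, e4, ← cl_sup, h_cl]
      rfl
    rw [e1]
    have e5 : ∀ j, ul (ψ 0 j) = 1 := by
      intro j
      rw [← (s j).ht, (s j).ht_eq]
      rfl
    have e6 := hJ1 0
    simp only [e5] at e6
    have e7 := e6.add_const 1
    simp only [sub_add_cancel, zero_add] at e7
    exact ul_eq e7
  set u : Sys T m := ⟨A, X, Tt, hht⟩ with hu
  exact ⟨J, hn, u, hJ, fun i => hJ1 (i + 1), fun i => by filter_upwards [hJ2 i] with k a using a.1, fun k => rfl⟩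

/-! ### diagonals of labels and of partitions -/

/-- diagonal of labels -/
def dlab {S : ℕ → Sp} (l : ∀ j, Lab (S j)) (J : ℕ → ℕ) (hn : Tendsto (fun k => ((S (J k)).F k).n) UF atTop) :
    Lab (dsp S J hn) := fun k => l (J k) k

/-- diagonal of unbounded informations -/
def dpart {S : ℕ → Sp} (A : ∀ j, Part (S j)) (J : ℕ → ℕ) (hn : Tendsto (fun k => ((S (J k)).F k).n) UF atTop) :
    Part (dsp S J hn) := fun k => A (J k) k

/-- quantities whose diagonal converges -/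
theorem tendsto_of_diag {f : ℕ → ℕ → ℝ} {J : ℕ → ℕ} {x : ℝ} (hJ : Tendsto J UF atTop)
    (h1 : Tendsto (fun k => f (J k) k - ul (f (J k))) UF (𝓝 0)) (h2 : Tendsto (fun j => ul (f j)) atTop (𝓝 x)) :
    Tendsto (fun k => f (J k) k) UF (𝓝 x) := diag_tendsto hJ h1 h2

/-- errors which go to zero with `j` -/
theorem tendsto_inv_J {J : ℕ → ℕ} (hJ : Tendsto J UF atTop) : Tendsto (fun k => 1 / ((J k : ℝ) + 1)) UF (𝓝 0) :=
  tendsto_one_div_add_atTop_nhds_zero_nat.comp hJ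

/-- the event that a label has small leaks, for the list of `diagG` -/
theorem leak_event {S : Sp} {l : Lab S} {A B : Part S} (h : l.DM A B) (e : ℝ) (he : 0 < e) :
    ∀ᶠ k in UF, (l k).leak (A k) / (S.F k).n ≤ e ∧ (l k).leak (B k) / (S.F k).n ≤ e := by
  filter_upwards [h.1.eventually (gt_mem_nhds he), h.2.eventually (gt_mem_nhds he)] with k a b using ⟨a.le, b.le⟩

/-- diagonals of double Markov labels are double Markov -/
theorem dlab_DM {S : ℕ → Sp} {l : ∀ j, Lab (S j)} {A B : ∀ j, Part (S j)} {J : ℕ → ℕ}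
    {hn : Tendsto (fun k => ((S (J k)).F k).n) UF atTop} {A' B' : Part (dsp S J hn)} (e : ℕ → ℝ)
    (he : Tendsto (fun k => e (J k)) UF (𝓝 0))
    (h1 : ∀ᶠ k in UF, (l (J k) k).leak (A (J k) k) / ((S (J k)).F k).n ≤ e (J k) ∧
      (l (J k) k).leak (B (J k) k) / ((S (J k)).F k).n ≤ e (J k))
    (hA : Nul (dsp S J hn) (fun k => h (dpart A J hn k) (A' k)))
    (hB : Nul (dsp S J hn) (fun k => h (dpart B J hn k) (B' k))) : (dlab l J hn).DM A' B' := by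
  have h2 : (dlab l J hn).DM (dpart A J hn) (dpart B J hn) := by
    constructor
    · refine tendsto_of_tendsto_of_tendsto_of_le_of_le' tendsto_const_nhds he ?_ ?_
      · exact Eventually.of_forall fun k => div_nonneg (FLab.leak_nonneg _ _) ((dsp S J hn).F k).pos.le
      · filter_upwards [h1] with k hk using hk.1
    · refine tendsto_of_tendsto_of_tendsto_of_le_of_le' tendsto_const_nhds he ?_ ?_
      · exact Eventually.of_forall fun k => div_nonneg (FLab.leak_nonneg _ _) ((dsp S J hn).F k).pos.le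
      · filter_upwards [h1] with k hk using hk.2
  exact h2.mono hA hB

end

end Pool.Agent.Helper52.KP
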