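import Pool.Agent.Helper31.EC.Ulim

/-! Abstract existence of robust objects (KAPPA (3.3)): a class with countably many functionals which are subadditive
under splitting and upper semicontinuous along diagonals has a member whose functionals do not change under
restriction. No integrals: a weighted sum of squares is maximized. -/

namespace Pool.Agent.Helper52.KP

open Filter Topology Pool.Agent.Helper31.EC

noncomputable section

universe u

section
variable {X : Type u} (f : ℕ → X → ℝ)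

/-- the functional which is maximized -/
def Phi (x : X) : ℝ := ∑' q, (1 / 2 : ℝ) ^ (q + 1) * (f q x) ^ 2

theorem wt_summable (M : ℝ) : Summable (fun q : ℕ => (1 / 2 : ℝ) ^ (q + 1) * M ^ 2) := by
  apply Summable.mul_right
  have h1 : Summable (fun q : ℕ => (1 / 2 : ℝ) ^ q) := summable_geometric_of_lt_one (by norm_num) (by norm_num)
  exact (summable_nat_add_iff 1).mpr h1

theorem wt_sum (M : ℝ) : ∑' q : ℕ, (1 / 2 : ℝ) ^ (q + 1) * M ^ 2 = M ^ 2 := by
  rw [tsum_mul_right]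
  have h1 : ∑' q : ℕ, (1 / 2 : ℝ) ^ (q + 1) = 1 := by
    simp only [pow_succ]
    rw [tsum_mul_right, tsum_geometric_two]
    norm_num
  rw [h1, one_mul]

variable {f}

theorem Phi_summable {M : ℝ} {x : X} (h0 : ∀ q, 0 ≤ f q x) (hM : ∀ q, f q x ≤ M) :
    Summable (fun q => (1 / 2 : ℝ) ^ (q + 1) * (f q x) ^ 2) := by
  apply Summable.of_nonneg_of_le (fun q => by positivity) _ (wt_summable M)
  intro q
  apply mul_le_mul_of_nonneg_left _ (by positivity)
  exact pow_le_pow_left₀ (h0 q) (hM q) 2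

theorem Phi_le {M : ℝ} {x : X} (h0 : ∀ q, 0 ≤ f q x) (hM : ∀ q, f q x ≤ M) : Phi f x ≤ M ^ 2 := by
  rw [← wt_sum M]
  apply (Phi_summable h0 hM).tsum_le_tsum _ (wt_summable M)
  intro q
  apply mul_le_mul_of_nonneg_left _ (by positivity)
  exact pow_le_pow_left₀ (h0 q) (hM q) 2

/-- partial sums -/
theorem Phi_le_partial {M : ℝ} {x : X} (h0 : ∀ q, 0 ≤ f q x) (hM : ∀ q, f q x ≤ M) (N : ℕ) :
    Phi f x ≤ ∑ q ∈ Finset.range N, (1 / 2 : ℝ) ^ (q + 1) * (f q x) ^ 2 + (1 / 2) ^ N * M ^ 2 := by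
  unfold Phi
  rw [← (Phi_summable h0 hM).sum_add_tsum_nat_add N]
  apply add_le_add le_rfl
  have h1 : Summable (fun q : ℕ => (1 / 2 : ℝ) ^ (q + N + 1) * (f (q + N) x) ^ 2) :=
    (summable_nat_add_iff N).mpr (Phi_summable h0 hM)
  have h2 : (fun q : ℕ => (1 / 2 : ℝ) ^ (q + 1) * ((1 / 2) ^ N * M ^ 2)) =
      fun q : ℕ => (1 / 2 : ℝ) ^ (q + N + 1) * M ^ 2 := by
    funext q
    rw [← mul_assoc, ← pow_add]
    congr 2
    ring
  have h3 : ∑' q : ℕ, (1 / 2 : ℝ) ^ (q + N + 1) * M ^ 2 = (1 / 2) ^ N * M ^ 2 := by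
    rw [← h2, tsum_mul_right]
    have h1 : ∑' q : ℕ, (1 / 2 : ℝ) ^ (q + 1) = 1 := by
      simp only [pow_succ]
      rw [tsum_mul_right, tsum_geometric_two]
      norm_num
    rw [h1, one_mul]
  rw [← h3]
  apply h1.tsum_le_tsum
  · intro q
    apply mul_le_mul_of_nonneg_left _ (by positivity)
    exact pow_le_pow_left₀ (h0 _) (hM _) 2
  · have := (summable_nat_add_iff N).mpr (wt_summable M)
    exact this

theorem partial_le_Phi {M : ℝ} {x : X} (h0 : ∀ q, 0 ≤ f q x) (hM : ∀ q, f q x ≤ M) (N : ℕ) :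
    ∑ q ∈ Finset.range N, (1 / 2 : ℝ) ^ (q + 1) * (f q x) ^ 2 ≤ Phi f x :=
  (Phi_summable h0 hM).sum_le_tsum _ (fun q _ => by positivity)

end

/-- ABSTRACT EXISTENCE OF ROBUST OBJECTS -/
theorem robust_exists {X : Type u} (C : X → Prop) (hne : ∃ x, C x) (f : ℕ → X → ℝ) (M : ℝ)
    (h0 : ∀ q x, C x → 0 ≤ f q x) (hM : ∀ q x, C x → f q x ≤ M)
    (hdiag : ∀ x : ℕ → X, (∀ j, C (x j)) → ∃ y, C y ∧ ∃ J : ℕ → ℕ, Tendsto J UF atTop ∧
      ∀ q, ul (fun k => f q (x (J k))) ≤ f q y) :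
    ∃ x, C x ∧ ∀ (y z : X) (p : ℝ), C y → C z → 0 < p → p ≤ 1 → (∀ q, f q x ≤ p * f q y + (1 - p) * f q z) →
      (∀ q, f q y = f q x) ∧ (p < 1 → ∀ q, f q z = f q x) := by
  set V : Set ℝ := {r | ∃ x, C x ∧ r = Phi f x} with hV
  have hVb : BddAbove V := by
    refine ⟨M ^ 2, ?_⟩
    rintro r ⟨x, hx, rfl⟩
    exact Phi_le (fun q => h0 q x hx) (fun q => hM q x hx)
  have hVn : V.Nonempty := by
    obtain ⟨x, hx⟩ := hne
    exact ⟨_, x, hx, rfl⟩
  have h1 : ∀ j : ℕ, ∃ r ∈ V, sSup V - 1 / ((j : ℝ) + 1) < r := by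
    intro j
    apply exists_lt_of_lt_csSup hVn
    have : (0 : ℝ) < 1 / ((j : ℝ) + 1) := by positivity
    linarith
  choose r hr hr' using h1
  choose x hx hrx using hr
  obtain ⟨y, hy, J, hJ, hJf⟩ := hdiag x hx
  have hb : ∀ q, UB (fun k => f q (x (J k))) := fun q =>
    UB_of_nonneg_le (Eventually.of_forall fun k => h0 q _ (hx _)) (Eventually.of_forall fun k => hM q _ (hx _))
  have h0u : ∀ q, 0 ≤ ul (fun k => f q (x (J k))) := fun q =>
    const_le_ul (hb q) (Eventually.of_forall fun k => h0 q _ (hx _))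
  have hmax : sSup V ≤ Phi f y := by
    have h2 : ∀ N : ℕ, sSup V - (1 / 2) ^ N * M ^ 2 ≤ Phi f y := by
      intro N
      refine le_trans ?_ (partial_le_Phi (fun q => h0 q y hy) (fun q => hM q y hy) N)
      have h3 : Tendsto (fun k => ∑ q ∈ Finset.range N, (1 / 2 : ℝ) ^ (q + 1) * (f q (x (J k))) ^ 2) UF
          (𝓝 (∑ q ∈ Finset.range N, (1 / 2 : ℝ) ^ (q + 1) * (ul (fun k => f q (x (J k)))) ^ 2)) := by
        apply tendsto_finsetSum
        intro q _
        exact ((ul_tendsto (hb q)).pow 2).const_mul _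
      have h4 : Tendsto (fun k => sSup V - 1 / ((J k : ℝ) + 1) - (1 / 2) ^ N * M ^ 2) UF
          (𝓝 (sSup V - 0 - (1 / 2) ^ N * M ^ 2)) := by
        have h5 : Tendsto (fun k => 1 / ((J k : ℝ) + 1)) UF (𝓝 0) :=
          tendsto_one_div_add_atTop_nhds_zero_nat.comp hJ
        exact (h5.const_sub _).sub_const _
      have h6 : sSup V - 0 - (1 / 2) ^ N * M ^ 2 ≤
          ∑ q ∈ Finset.range N, (1 / 2 : ℝ) ^ (q + 1) * (ul (fun k => f q (x (J k)))) ^ 2 := by
        refine le_of_tendsto_of_tendsto h4 h3 (Eventually.of_forall fun k => ?_)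
        have h7 := Phi_le_partial (fun q => h0 q _ (hx (J k))) (fun q => hM q _ (hx (J k))) N
        have h8 := hr' (J k)
        rw [hrx (J k)] at h8
        beta_reduce
        linarith
      rw [sub_zero] at h6
      refine h6.trans ?_
      apply Finset.sum_le_sum
      intro q _
      apply mul_le_mul_of_nonneg_left _ (by positivity)
      exact pow_le_pow_left₀ (h0u q) (hJf q) 2
    have h9 : Tendsto (fun N : ℕ => sSup V - (1 / 2) ^ N * M ^ 2) atTop (𝓝 (sSup V - 0 * M ^ 2)) :=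
      ((tendsto_pow_atTop_nhds_zero_of_lt_one (by norm_num) (by norm_num)).mul_const _).const_sub _
    rw [zero_mul, sub_zero] at h9
    exact le_of_tendsto' h9 h2
  refine ⟨y, hy, ?_⟩
  intro a b p ha hb' hp hp1 hs
  have e1 : Phi f a ≤ Phi f y := (le_csSup hVb ⟨a, ha, rfl⟩).trans hmax
  have e2 : Phi f b ≤ Phi f y := (le_csSup hVb ⟨b, hb', rfl⟩).trans hmax
  have sy := Phi_summable (fun q => h0 q y hy) (fun q => hM q y hy)
  have sa := Phi_summable (fun q => h0 q a ha) (fun q => hM q a ha)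
  have sb := Phi_summable (fun q => h0 q b hb') (fun q => hM q b hb')
  set d : ℕ → ℝ := fun q => p * ((1 / 2 : ℝ) ^ (q + 1) * (f q a) ^ 2) + (1 - p) * ((1 / 2 : ℝ) ^ (q + 1) * (f q b) ^ 2) -
    (1 / 2 : ℝ) ^ (q + 1) * (f q y) ^ 2 with hd
  have hsq : ∀ q, (f q y) ^ 2 ≤ (p * f q a + (1 - p) * f q b) ^ 2 := fun q =>
    pow_le_pow_left₀ (h0 q y hy) (hs q) 2
  have hid : ∀ q, p * (f q a) ^ 2 + (1 - p) * (f q b) ^ 2 - (p * f q a + (1 - p) * f q b) ^ 2 =
      p * (1 - p) * (f q a - f q b) ^ 2 := fun q => by ring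
  have hpp : 0 ≤ p * (1 - p) := mul_nonneg hp.le (by linarith)
  have hdn : ∀ q, 0 ≤ d q := by
    intro q
    have e3 : d q = (1 / 2 : ℝ) ^ (q + 1) * (p * (f q a) ^ 2 + (1 - p) * (f q b) ^ 2 - (f q y) ^ 2) := by
      rw [hd]; ring
    rw [e3]
    apply mul_nonneg (by positivity)
    have := hid q
    have h3 := mul_nonneg hpp (sq_nonneg (f q a - f q b))
    linarith [hsq q]
  have hds : Summable d := ((sa.mul_left p).add (sb.mul_left (1 - p))).sub sy
  have hdt : ∑' q, d q = p * Phi f a + (1 - p) * Phi f b - Phi f y := by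
    rw [hd, ((sa.mul_left p).add (sb.mul_left (1 - p))).tsum_sub sy, (sa.mul_left p).tsum_add (sb.mul_left (1 - p)),
      tsum_mul_left, tsum_mul_left]
    rfl
  have hd0 : ∀ q, d q = 0 := by
    intro q
    have e3 : d q ≤ ∑' q, d q := by
      have := hds.sum_le_tsum {q} (fun i _ => hdn i)
      simpa using this
    rw [hdt] at e3
    have e4 : p * Phi f a + (1 - p) * Phi f b ≤ Phi f y := by
      have h3 : p * Phi f a ≤ p * Phi f y := mul_le_mul_of_nonneg_left e1 hp.le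
      have h4 : (1 - p) * Phi f b ≤ (1 - p) * Phi f y := mul_le_mul_of_nonneg_left e2 (by linarith)
      nlinarith
    exact le_antisymm (by linarith) (hdn q)
  have key : ∀ q, p * (f q a) ^ 2 + (1 - p) * (f q b) ^ 2 = (f q y) ^ 2 := by
    intro q
    have e3 : d q = (1 / 2 : ℝ) ^ (q + 1) * (p * (f q a) ^ 2 + (1 - p) * (f q b) ^ 2 - (f q y) ^ 2) := by
      rw [hd]; ring
    rw [hd0 q] at e3
    have e4 : (1 / 2 : ℝ) ^ (q + 1) ≠ 0 := by positivity
    rcases mul_eq_zero.mp e3.symm with h | h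
    · exact absurd h e4
    · linarith
  have hmid : ∀ q, f q y = p * f q a + (1 - p) * f q b := by
    intro q
    have h3 := hid q
    have h4 := mul_nonneg hpp (sq_nonneg (f q a - f q b))
    have h5 := hsq q
    have h6 : (f q y) ^ 2 = (p * f q a + (1 - p) * f q b) ^ 2 := by
      apply le_antisymm h5
      linarith [key q]
    have h7 : 0 ≤ p * f q a + (1 - p) * f q b := (h0 q y hy).trans (hs q)
    exact (pow_left_inj₀ (h0 q y hy) h7 (by norm_num)).mp h6
  by_cases hp2 : p < 1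
  · have hab : ∀ q, f q a = f q b := by
      intro q
      have h3 := hid q
      have h4 : p * (1 - p) * (f q a - f q b) ^ 2 = 0 := by
        rw [← h3, key q, ← hmid q, sub_self]
      have h5 : p * (1 - p) ≠ 0 := (mul_pos hp (by linarith)).ne'
      rcases mul_eq_zero.mp h4 with h | h
      · exact absurd h h5
      · exact sub_eq_zero.mp (pow_eq_zero_iff (by norm_num) |>.mp h)
    refine ⟨fun q => ?_, fun _ q => ?_⟩
    · rw [hmid q, ← hab q]; ring
    · rw [hmid q, hab q]; ring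
  · have hp3 : p = 1 := le_antisymm hp1 (not_lt.mp hp2)
    refine ⟨fun q => ?_, fun h => absurd h hp2⟩
    rw [hmid q, hp3]; ring

end

end Pool.Agent.Helper52.KP
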