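import Pool.Agent.Helper52.KP.Semi
import Pool.Agent.Helper52.KP.Rob
import Pool.Agent.Helper40.EL.D3

/-! The function `i(c)` of a system: information of the maximal double Markov label of the window `c` minus `c`;
bounds, monotonicity, semicontinuity along diagonals. -/

namespace Pool.Agent.Helper52.KP

open Finset Filter Topology Pool.Agent.Helper69.RK Pool.Agent.Helper31.EC Pool.Agent.Helper31.EC.Sp
open Pool.Agent.Helper40.EL

noncomputable section

section
variable {S : Sp} {m : ℕ} (s : Sys S m)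

/-- the two forms of the double Markov condition -/
theorem DM_iff_DML {l : Lab S} {c : ℝ} :
    l.DM (pA s c) (pB s) ↔ l.DML (s.xi 1 ⊔ s.t.dg c) (s.P.dg 1 ⊔ s.T) := by
  have a1 : PLe (rp (s.xi 1 ⊔ s.t.dg c)) (pA s c) ∧ PLe (pA s c) (rp (s.xi 1 ⊔ s.t.dg c)) := by
    rw [← cl_iA]
    exact rp_rpI (iA s c)
  have b1 : PLe (rp (s.P.dg 1 ⊔ s.T)) (pB s) ∧ PLe (pB s) (rp (s.P.dg 1 ⊔ s.T)) := by
    rw [← cl_iB]
    exact rp_rpI (iB s)
  constructor
  · intro hl
    exact hl.mono a1.2 b1.2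
  · intro hl
    exact Lab.DM.mono hl a1.1 b1.1

theorem IsMax_iff_IsMaxL {l : Lab S} {c : ℝ} :
    l.IsMax (pA s c) (pB s) ↔ l.IsMaxL (s.xi 1 ⊔ s.t.dg c) (s.P.dg 1 ⊔ s.T) := by
  constructor
  · intro hl
    exact ⟨(DM_iff_DML s).mp hl.1, fun l' hl' => hl.2 l' ((DM_iff_DML s).mpr hl')⟩
  · intro hl
    exact ⟨(DM_iff_DML s).mpr hl.1, fun l' hl' => hl.2 l' ((DM_iff_DML s).mp hl')⟩

/-- the values of the information of double Markov labels of the window `c` -/
def icS (c : ℝ) : Set ℝ := {x | ∃ l : Lab S, l.DM (pA s c) (pB s) ∧ x = l.info}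

/-- `i(c)` -/
def ic (c : ℝ) : ℝ := sSup (icS s c) - c

theorem H_A_le {c : ℝ} (hc : 0 ≤ c) : ul (fun k => H (pA s c k) / (S.F k).n) ≤ 2 * m + c := by
  have h1 : (fun k => H (pA s c k) / (S.F k).n) = S.rt (iA s c).1 S.tr := by
    funext k
    rw [pA_eq, fc_rt_H]
  rw [h1, ← H_cl, cl_iA]
  have h2 := H_sup_le (s.xi 1) (s.t.dg c)
  have h3 : H (s.xi 1) ≤ H (s.a.dg 1) + H (s.x.dg 1) := H_sup_le _ _
  have h4 := s.a.H_dg_le (zero_le_one)
  have h5 := s.x.H_dg_le (zero_le_one)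
  have h6 := s.t.H_dg_le hc
  simp only [Nat.cast_one, one_mul, mul_one] at h4 h5 h6
  linarith

theorem icS_le {c : ℝ} (hc : 0 ≤ c) {x : ℝ} (hx : x ∈ icS s c) : x ≤ 2 * m + c := by
  obtain ⟨l, hl, rfl⟩ := hx
  exact (hl.info_le (pA_Bd s c)).trans (H_A_le s hc)

theorem icS_bdd (c : ℝ) : BddAbove (icS s c) := by
  refine ⟨ul (fun k => H (pA s c k) / (S.F k).n), ?_⟩
  rintro x ⟨l, hl, rfl⟩
  exact hl.info_le (pA_Bd s c)

theorem le_ic {c : ℝ} {l : Lab S} (hl : l.DM (pA s c) (pB s)) : l.info - c ≤ ic s c := by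
  unfold ic
  have := le_csSup (icS_bdd s c) ⟨l, hl, rfl⟩
  linarith

/-- maximal labels -/
theorem exists_kappa (c : ℝ) : ∃ l : Lab S, l.IsMax (pA s c) (pB s) ∧ ic s c = l.info - c := by
  obtain ⟨l, hl⟩ := Lab.exists_max (pA s c) (pB s) (pA_Bd s c)
  refine ⟨l, hl, ?_⟩
  apply le_antisymm
  · unfold ic
    have : sSup (icS s c) ≤ l.info := by
      apply csSup_le (⟨l.info, l, hl.1, rfl⟩ : (icS s c).Nonempty)
      rintro x ⟨l', hl', rfl⟩
      exact hl.2 l' hl'
    linarith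
  · exact le_ic s hl.1

theorem IsMax_ic {c : ℝ} {l : Lab S} (hl : l.IsMax (pA s c) (pB s)) : ic s c = l.info - c := by
  obtain ⟨l', hl', h⟩ := exists_kappa s c
  rw [h]
  have h1 := hl.2 l' hl'.1
  have h2 := hl'.2 l hl.1
  linarith

theorem IsMax_iff_ic {c : ℝ} {l : Lab S} (hl : l.DM (pA s c) (pB s)) :
    l.IsMax (pA s c) (pB s) ↔ ic s c = l.info - c := by
  constructor
  · exact IsMax_ic s
  · intro h
    refine ⟨hl, fun l' hl' => ?_⟩
    have := le_ic s hl'
    linarith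

theorem ic_le {c : ℝ} (hc : 0 ≤ c) : ic s c ≤ 2 * m := by
  obtain ⟨l, hl, h⟩ := exists_kappa s c
  rw [h]
  have := icS_le s hc ⟨l, hl.1, rfl⟩
  linarith

/-- the label `t_c`: the space itself with the partition of the first `c n` digits of the height -/
def labt (c : ℝ) : Lab S := fun k =>
  { T := S.F k
    p := (FLab.triv (S.F k)).p
    hn := rfl
    V := (s.fin k).kt c }

theorem labt_leak (c : ℝ) (k : ℕ) (x : FL (S.F k)) : (labt s c k).leak x = h (fc ((s.fin k).kt c) : FL (S.F k)) x := by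
  unfold FLab.leak
  have h1 : (labt s c k).p.map x = x := by
    induction x using fc_ind
    rfl
  have h2 : (labt s c k).v ≤ (labt s c k).p.top := by
    apply fc_le
    intro ω ω' _ _ _ e
    have e' : ω = ω' := e
    rw [e']
  rw [h1]
  have h3 : I (labt s c k).v (labt s c k).p.top x = h (labt s c k).v x - h (labt s c k).v ((labt s c k).p.top ⊔ x) :=
    I_eq _ _ _
  have h4 : h (labt s c k).v ((labt s c k).p.top ⊔ x) = 0 := h_zero (h2.trans le_sup_left)
  rw [h3, h4, sub_zero]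
  rfl

theorem labt_DM {c : ℝ} (hc : c ≤ 1) : (labt s c).DM (pA s c) (pB s) := by
  constructor
  · have h1 : (fun k => (labt s c k).leak (pA s c k)) = fun _ => 0 := by
      funext k
      rw [labt_leak]
      apply h_zero
      apply fc_mono
      exact inf_le_right
    rw [h1]; exact Nul_zero S
  · have h1 : ∀ k, (labt s c k).leak (pB s k) / (S.F k).n = S.rt (s.It c).1 (iB s).1 k := by
      intro k
      rw [labt_leak, pB_eq]
      exact fc_rt (s.It c) (iB s) k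
    have h2 : cl (s.It c) ≤ cl (iB s) := by
      rw [s.cl_It, cl_iB]
      exact (s.t.dg_mono hc).trans le_sup_right
    have h3 : Tendsto (S.rt (s.It c).1 (iB s).1) UF (𝓝 0) := h2
    exact h3.congr (fun k => (h1 k).symm)

theorem labt_info {c : ℝ} (h0 : 0 ≤ c) (h1 : c ≤ 1) : (labt s c).info = c := by
  unfold Lab.info
  have h2 : ∀ k, (labt s c k).info / (S.F k).n = S.rt (s.It c).1 S.tr k := by
    intro k
    rw [← FLab.leak_bot, labt_leak, h_bot]
    exact fc_rt_H (s.It c) k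
  rw [funext h2, ← H_cl, s.cl_It]
  apply le_antisymm
  · simpa using s.t.H_dg_le h0
  · have := h_le_H (s.t.dg c) (s.xi 1)
    rw [s.h_t_xi h0 h1] at this
    exact this

theorem ic_nonneg {c : ℝ} (h0 : 0 ≤ c) (h1 : c ≤ 1) : 0 ≤ ic s c := by
  have := le_ic s (labt_DM s h1)
  rw [labt_info s h0 h1, sub_self] at this
  exact this

end

/-- (2.4): SEMICONTINUITY OF `i` along diagonals, countably many windows at once -/
theorem ic_semi {m : ℕ} (S : ℕ → Sp) (s : ∀ j, Sys (S j) m) (c : ℕ → ℕ → ℝ) (c' : ℕ → ℝ)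
    (hc : ∀ q, Tendsto (c q) atTop (𝓝 (c' q))) (hc0 : ∀ q j, 0 ≤ c q j) (hc1 : ∀ q j, c q j ≤ 1)
    (φ : ℕ → ℕ → ℕ → ℝ)
    (hφ : ∀ i j, UB (φ i j)) (E : ℕ → ℕ → ℕ → Prop) (hE : ∀ i j, ∀ᶠ k in UF, E i j k) :
    ∃ (J : ℕ → ℕ) (hn : Tendsto (fun k => ((S (J k)).F k).n) UF atTop) (u : Sys (dsp S J hn) m),
      Tendsto J UF atTop ∧
      (∀ i, Tendsto (fun k => φ i (J k) k - ul (φ i (J k))) UF (𝓝 0)) ∧
      (∀ i, ∀ᶠ k in UF, E i (J k) k) ∧ (∀ k, u.fin k = (s (J k)).fin k) ∧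
      ∀ q, ul (fun k => ic (s (J k)) (c q (J k))) ≤ ic u (c' q) := by
  choose l hl hli using fun q j => exists_kappa (s j) (c q j)
  obtain ⟨J, hn, u, hJ, h1, h2, h3, h4, h5⟩ := semi S s c c' hc l (fun q j => (hl q j).1) φ hφ E hE
  refine ⟨J, hn, u, hJ, h1, h2, h3, fun q => ?_⟩
  refine le_trans ?_ (le_ic u (h4 q))
  have hb : UB (fun k => ic (s (J k)) (c q (J k))) :=
    UB_of_nonneg_le (Eventually.of_forall fun k => ic_nonneg _ (hc0 q _) (hc1 q _))
      (Eventually.of_forall fun k => ic_le _ (hc0 q _))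
  have h6 : Tendsto (fun k => (l q (J k) k).info / ((S (J k)).F k).n) UF
      (𝓝 (ul (fun k => ic (s (J k)) (c q (J k))) + c' q)) := by
    have h7 := ((h5 q).add (ul_tendsto hb)).add ((hc q).comp hJ)
    rw [zero_add] at h7
    refine h7.congr (fun k => ?_)
    rw [hli q (J k)]
    simp only [Function.comp]
    ring
  have h8 : (dlab (l q) J hn).info = ul (fun k => ic (s (J k)) (c q (J k))) + c' q := ul_eq h6
  rw [h8]
  linarith

end

end Pool.Agent.Helper52.KP
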