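import Pool.Agent.Helper52.KP.Add
import Pool.Agent.Helper42.NS.PsiR

/-! ROBUST SYSTEMS: semicontinuity of `i(c)` along diagonals; an abstract list of functionals (usc along diagonals,
superadditive under restrictions) is rigid at some system of every class closed under diagonals and restrictions to
events of extensions; one system for `i(.)`, all `psi` of countably many gauges and any further list. -/

namespace Pool.Agent.Helper52.KP

open Finset Filter Topology Pool.Agent.Helper69.RK Pool.Agent.Helper31.EC Pool.Agent.Helper31.EC.Sp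
open Pool.Agent.Helper40.EL Pool.Agent.Helper42.NS

noncomputable section

section
variable {m : ℕ}

/-- existence of a finite label of given quality -/
def HasI (X : FSy m) (c η v : ℝ) : Prop :=
  ∃ l : FLab X.F, l.leak (PA X c) ≤ η * X.F.n ∧ l.leak (PB X) ≤ η * X.F.n ∧ (v - η) * X.F.n ≤ l.info

theorem HasI.mono {X : FSy m} {c c' η η' v v' δ : ℝ} (h0 : HasI X c η v)
    (hd : h (PA X c) (PA X c') ≤ δ * X.F.n) (hη : η + δ ≤ η') (hδ : 0 ≤ δ) (hv : v' - v ≤ η' - η) :
    HasI X c' η' v' := by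
  have hn := X.F.pos
  obtain ⟨l, h1, h2, h3⟩ := h0
  refine ⟨l, ?_, ?_, ?_⟩
  · have e1 := l.leak_le_leak (PA X c') (PA X c)
    have e2 : η * X.F.n + δ * X.F.n ≤ η' * X.F.n := by
      rw [← add_mul]
      exact mul_le_mul_of_nonneg_right hη hn.le
    linarith
  · exact h2.trans (mul_le_mul_of_nonneg_right (by linarith) hn.le)
  · exact le_trans (mul_le_mul_of_nonneg_right (by linarith) hn.le) h3

/-- finite description of the maximal information -/
theorem hasI_of_le {S : Sp} (s : Sys S m) (c : ℝ) {v : ℝ} (hv : v ≤ Helper40.EL.ic s c + c) {η : ℝ} (hη : 0 < η) :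
    ∀ᶠ k in UF, HasI (s.fin k) c η v := by
  have hl := kap_isKap s c
  have h1 := hl.info_eq
  have h2 := eventually_gt_of_lt_ul (hl.1.ub (cA_Bd s c)) (show v - η < ul (fun k => (kap s c k).info / (S.F k).n) by
    show v - η < (kap s c).info
    linarith)
  filter_upwards [hl.1.1.eventually (gt_mem_nhds hη), hl.1.2.eventually (gt_mem_nhds hη), h2] with k a b d
  rw [div_lt_iff₀ (S.F k).pos] at a b
  rw [lt_div_iff₀ (S.F k).pos] at d
  exact ⟨kap s c k, a.le, b.le, d.le⟩

theorem le_of_hasI {S : Sp} (s : Sys S m) (c : ℝ) {v : ℝ} (h0 : ∀ η : ℝ, 0 < η → ∀ᶠ k in UF, HasI (s.fin k) c η v) :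
    v ≤ Helper40.EL.ic s c + c := by
  have h1 : ∀ j : ℕ, ∀ᶠ k in UF, HasI (s.fin k) c (1 / ((j : ℝ) + 1)) v := fun j => h0 _ (by positivity)
  obtain ⟨J, hJ, hJ2⟩ := dia (fun j k => HasI (s.fin k) c (1 / ((j : ℝ) + 1)) v) h1
  classical
  set l : Lab S := fun k => if hk : HasI (s.fin k) c (1 / ((J k : ℝ) + 1)) v then hk.choose
    else FLab.triv (S.F k) with hf
  have hq : ∀ᶠ k in UF, (l k).leak (cA s c k) ≤ 1 / ((J k : ℝ) + 1) * (S.F k).n ∧
      (l k).leak (cB s k) ≤ 1 / ((J k : ℝ) + 1) * (S.F k).n ∧ (v - 1 / ((J k : ℝ) + 1)) * (S.F k).n ≤ (l k).info := by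
    filter_upwards [hJ2] with k hk
    have hk' := hk (J k) le_rfl
    have e : l k = hk'.choose := by
      rw [hf]; exact dif_pos hk'
    rw [e]
    exact hk'.choose_spec
  have ht := tendsto_inv_J hJ
  have hdm : DMc s c l := by
    constructor
    · refine tendsto_of_tendsto_of_tendsto_of_le_of_le' tendsto_const_nhds ht
        (Eventually.of_forall fun k => div_nonneg (FLab.leak_nonneg _ _) (S.F k).pos.le) ?_
      filter_upwards [hq] with k hk
      rw [div_le_iff₀ (S.F k).pos]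
      exact hk.1
    · refine tendsto_of_tendsto_of_tendsto_of_le_of_le' tendsto_const_nhds ht
        (Eventually.of_forall fun k => div_nonneg (FLab.leak_nonneg _ _) (S.F k).pos.le) ?_
      filter_upwards [hq] with k hk
      rw [div_le_iff₀ (S.F k).pos]
      exact hk.2.1
  refine le_trans ?_ (info_le_ic hdm)
  have hu := hdm.ub (cA_Bd s c)
  refine le_of_tendsto_of_tendsto (f := fun k => v - 1 / ((J k : ℝ) + 1)) ?_ (ul_tendsto hu) ?_
  · have := ht.const_sub v
    rwa [sub_zero] at this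
  · filter_upwards [hq] with k hk
    rw [le_div_iff₀ (S.F k).pos]
    exact hk.2.2

theorem ic_le_of_hasI {S S' : Sp} (s : Sys S m) (s' : Sys S' m) (c c' : ℝ)
    (h0 : ∀ η v : ℝ, 0 < η → (∀ η' : ℝ, 0 < η' → ∀ᶠ k in UF, HasI (s.fin k) c η' v) →
      ∀ᶠ k in UF, HasI (s'.fin k) c' η v) : Helper40.EL.ic s c + c ≤ Helper40.EL.ic s' c' + c' :=
  le_of_hasI s' c' fun η hη => h0 η _ hη fun _ hη' => hasI_of_le s c le_rfl hη'

/-- SEMICONTINUITY of `i` along diagonals, with windows `c j → c'` -/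
theorem ic_diag (S : ℕ → Sp) (s : ∀ j, Sys (S j) m) (c : ℕ → ℝ) (c' : ℝ) (hc : Tendsto c atTop (𝓝 c'))
    (h0 : ∀ j, 0 ≤ c j) (h1 : ∀ j, c j ≤ 1) :
    ∃ E : ℕ → ℕ → Prop, (∀ j, ∀ᶠ k in UF, E j k) ∧
      ∀ (T : Sp) (u : Sys T m) (J : ℕ → ℕ), Tendsto J UF atTop → (∀ k, u.fin k = (s (J k)).fin k) →
        (∀ᶠ k in UF, E (J k) k) → ul (fun k => Helper40.EL.ic (s (J k)) (c (J k))) ≤ Helper40.EL.ic u c' := by
  refine ⟨fun j k => HasI ((s j).fin k) (c j) (1 / ((j : ℝ) + 1)) (Helper40.EL.ic (s j) (c j) + c j) ∧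
    h (PA ((s j).fin k) (c j)) (PA ((s j).fin k) c') ≤ (max (c j - c') 0 + 1 / ((j : ℝ) + 1)) * ((s j).fin k).F.n,
    fun j => ?_, fun T u J hJ hfin hE => ?_⟩
  · have h5 : (0 : ℝ) < 1 / ((j : ℝ) + 1) := by positivity
    have h6 : ul (fun k => h (pA (s j) (c j) k) (pA (s j) c' k) / ((S j).F k).n) <
        max (c j - c') 0 + 1 / ((j : ℝ) + 1) := by
      have := pA_pA (s j) c' (c j)
      linarith
    filter_upwards [hasI_of_le (s j) (c j) le_rfl h5, eventually_lt_of_ul_lt (pA_pA_UB (s j) c' (c j)) h6]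
      with k a b
    refine ⟨a, ?_⟩
    rw [div_lt_iff₀ ((S j).F k).pos] at b
    exact b.le
  · have hb : UB (fun k => Helper40.EL.ic (s (J k)) (c (J k))) :=
      UB_of_nonneg_le (Eventually.of_forall fun k => Helper40.EL.ic_nonneg (h0 _) (h1 _))
        (Eventually.of_forall fun k => le_trans (Helper40.EL.ic_le (h0 _) (h1 _))
          (show h ((s (J k)).P.dg 1) (s (J k)).T ≤ (m : ℝ) by
            have e1 := h_le_H ((s (J k)).P.dg 1) (s (J k)).T
            have e2 := (s (J k)).P.H_dg_le zero_le_one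
            simp only [mul_one] at e2
            linarith))
    set U := ul (fun k => Helper40.EL.ic (s (J k)) (c (J k))) with hU
    have key : U + c' ≤ Helper40.EL.ic u c' + c' := by
      apply le_of_hasI
      intro η hη
      have hδ : Tendsto (fun k => max (c (J k) - c') 0 + 1 / ((J k : ℝ) + 1)) UF (𝓝 0) := by
        have h3 : Tendsto (fun k => max (c (J k) - c') 0 + 1 / ((J k : ℝ) + 1)) UF (𝓝 (max (c' - c') 0 + 0)) := by
          apply Tendsto.add _ (tendsto_inv_J hJ)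
          exact ((hc.comp hJ).sub_const _).max tendsto_const_nhds
        rwa [sub_self, max_self, add_zero] at h3
      have h4 : U - η / 4 < ul (fun k => Helper40.EL.ic (s (J k)) (c (J k))) := by linarith
      have h5 : c' - η / 4 < c' := by linarith
      filter_upwards [hE, hδ.eventually (gt_mem_nhds (show (0 : ℝ) < η / 4 by linarith)),
        (tendsto_inv_J hJ).eventually (gt_mem_nhds (show (0 : ℝ) < η / 4 by linarith)),
        eventually_gt_of_lt_ul hb h4, (hc.comp hJ).eventually (lt_mem_nhds h5)] with k a b d e f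
      rw [hfin k]
      have f' : c' - η / 4 < c (J k) := f
      have hm := le_max_right (c (J k) - c') 0
      have hp : (0 : ℝ) < 1 / ((J k : ℝ) + 1) := by positivity
      exact a.1.mono (δ := max (c (J k) - c') 0 + 1 / ((J k : ℝ) + 1)) a.2 (by linarith) (by linarith) (by linarith)
    linarith

/-- `i(c)` is upper semicontinuous along diagonals -/
theorem ic_usc {c : ℝ} (h0 : 0 ≤ c) (h1 : c ≤ 1) :
    DiagUsc (fun _ _ => True) (fun (S : Sp) (s : Sys S m) => Helper40.EL.ic s c) := by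
  intro S s _
  obtain ⟨E, hE, h2⟩ := ic_diag S s (fun _ => c) c tendsto_const_nhds (fun _ => h0) (fun _ => h1)
  exact ⟨fun _ => E, fun _ => hE, fun T u J hd => h2 T u J hd.tend hd.fin (hd.slow 0)⟩

/-- the two definitions of `i(c)` agree -/
theorem ic_eq {S : Sp} (s : Sys S m) (c : ℝ) : Helper52.KP.ic s c = Helper40.EL.ic s c := by
  have h1 := kap_isKap s c
  have h2 : (kap s c).IsMax (pA s c) (pB s) := h1
  rw [IsMax_ic s h2, h1.info_eq]
  ring

theorem ic_le_m {S : Sp} (s : Sys S m) {c : ℝ} (h0 : 0 ≤ c) (h1 : c ≤ 1) : Helper40.EL.ic s c ≤ m := by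
  refine (Helper40.EL.ic_le h0 h1).trans ?_
  have e1 := h_le_H (s.P.dg 1) s.T
  have e2 := s.P.H_dg_le zero_le_one
  simp only [mul_one] at e2
  linarith

/-! ### rigid functionals -/

/-- classes closed under restrictions to events of positive probability of extensions -/
def ImCl (C : ∀ S : Sp, Sys S m → Prop) : Prop :=
  ∀ (S : Sp) (s : Sys S m), C S s → ∀ (T : Sp) (p : Pj T S) (E : ∀ k, (T.F k).Ω → Prop)
    (hE : 0 < ul (T.pr E)), C (Sp.im p E) (s.im p E hE)

/-- a functional which can be made rigid: bounded, usc along diagonals, at most the average of the values at the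
restrictions to the two parts -/
structure Fn (C : ∀ S : Sp, Sys S m → Prop) (M : ℝ) where
  f : ∀ S : Sp, Sys S m → ℝ
  usc : DiagUsc C f
  nonneg : ∀ (S : Sp) (s : Sys S m), C S s → 0 ≤ f S s
  le : ∀ (S : Sp) (s : Sys S m), C S s → f S s ≤ M
  split : ∀ (S : Sp) (s : Sys S m), C S s → ∀ (T : Sp) (p : Pj T S) (E : ∀ k, (T.F k).Ω → Prop)
    (hE : 0 < ul (T.pr E)) (hE' : 0 < ul (T.pr fun k ω => ¬ E k ω)),
    f S s ≤ ul (T.pr E) * f _ (s.im p E hE) + (1 - ul (T.pr E)) * f _ (s.im p (fun k ω => ¬ E k ω) hE')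
  typ : ∀ (S : Sp) (s : Sys S m), C S s → ∀ (T : Sp) (p : Pj T S) (E : ∀ k, (T.F k).Ω → Prop)
    (hE : 0 < ul (T.pr E)), Typ E → f S s ≤ f _ (s.im p E hE)

/-- `s` is rigid for the functional `f` -/
def Rig (f : ∀ S : Sp, Sys S m → ℝ) {S : Sp} (s : Sys S m) : Prop :=
  ∀ (T : Sp) (p : Pj T S) (E : ∀ k, (T.F k).Ω → Prop) (hE : 0 < ul (T.pr E)), f _ (s.im p E hE) = f S s

/-- EXISTENCE OF RIGID SYSTEMS for countable lists of functionals -/
theorem exists_rig {C : ∀ S : Sp, Sys S m → Prop} (hC : DiagCl C) (him : ImCl C)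
    (hne : ∃ (S : Sp) (s : Sys S m), C S s) {M : ℝ} (F : ℕ → Fn C M) :
    ∃ (S : Sp) (s : Sys S m), C S s ∧ ∀ q, Rig (F q).f s := by
  obtain ⟨S, s, hs, hr⟩ := exists_rigid C hC hne (fun q => (F q).f) (fun q => (F q).usc) M (fun q => (F q).nonneg)
    (fun q => (F q).le)
  refine ⟨S, s, hs, fun q T p E hE => ?_⟩
  rcases typ_or E with ht | hE'
  · refine hr _ (s.im p E hE) S s 1 (him S s hs T p E hE) hs one_pos le_rfl (fun q => ?_) q
    have := (F q).typ S s hs T p E hE ht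
    linarith
  · exact hr _ (s.im p E hE) _ (s.im p (fun k ω => ¬ E k ω) hE') (ul (T.pr E)) (him S s hs T p E hE)
      (him S s hs T p _ hE') hE (ul_pr_le_one E) (fun q => (F q).split S s hs T p E hE hE') q

/-- lists indexed by a countable type -/
theorem exists_rig' {C : ∀ S : Sp, Sys S m → Prop} (hC : DiagCl C) (him : ImCl C)
    (hne : ∃ (S : Sp) (s : Sys S m), C S s) {M : ℝ} {ι : Type} [Countable ι] [Nonempty ι] (F : ι → Fn C M) :
    ∃ (S : Sp) (s : Sys S m), C S s ∧ ∀ q, Rig (F q).f s := by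
  obtain ⟨g, hg⟩ := exists_surjective_nat ι
  obtain ⟨S, s, hs, h1⟩ := exists_rig hC him hne (fun q => F (g q))
  refine ⟨S, s, hs, fun i => ?_⟩
  obtain ⟨q, rfl⟩ := hg i
  exact h1 q

/-- `i(c)` as a rigid functional -/
def fnI (C : ∀ S : Sp, Sys S m → Prop) {M : ℝ} (hM : (m : ℝ) ≤ M) (c : ℝ) (h0 : 0 ≤ c) (h1 : c ≤ 1) : Fn C M where
  f := fun _ s => Helper40.EL.ic s c
  usc := (ic_usc h0 h1).mono fun _ _ _ => trivial
  nonneg := fun _ _ _ => Helper40.EL.ic_nonneg h0 h1
  le := fun _ s _ => (ic_le_m s h0 h1).trans hM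
  split := fun _ s _ _ p E hE hE' => (ic_add s p E hE hE' c).le
  typ := fun _ s _ _ p E hE ht => (ic_typ s p E ht hE c).ge

/-- the functionals `psi` as rigid functionals -/
def fnP (C : ∀ S : Sp, Sys S m → Prop) {M : ℝ} (hM : 1 ≤ M) (G : Gg m) (c σ : ℝ) : Fn C M where
  f := fun _ s => psi G s c σ
  usc := (psi_usc c σ).mono fun _ _ _ => trivial
  nonneg := fun _ s _ => psi_nonneg s c σ
  le := fun _ s _ => (psi_le_one s c σ).trans hM
  split := fun _ s _ _ p E hE hE' => psi_im_split s p E hE hE' c σ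
  typ := fun _ s _ _ p E hE ht => psi_im_typ s p E hE ht c σ

/-- `i(c)`, `0 ≤ c ≤ 1`, does not change under restrictions to events of positive probability of extensions -/
def RobustI {S : Sp} (s : Sys S m) : Prop :=
  ∀ c : ℝ, 0 ≤ c → c ≤ 1 → Rig (fun _ s => Helper40.EL.ic s c) s

/-- comparison at rational windows is enough -/
theorem ic_le_of_rat {S S' : Sp} (s : Sys S m) (s' : Sys S' m)
    (h0 : ∀ c : ℚ, 0 ≤ c → c ≤ 1 → Helper40.EL.ic s c ≤ Helper40.EL.ic s' c) {c : ℝ} (hc : 0 ≤ c) (hc1 : c ≤ 1) :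
    Helper40.EL.ic s c ≤ Helper40.EL.ic s' c := by
  rcases hc1.eq_or_lt with rfl | hlt
  · have := h0 1 (by norm_num) le_rfl
    simpa using this
  · apply ic_right hc hlt
    intro c' hcc hc'
    obtain ⟨q, hq, hq'⟩ := exists_rat_btwn hcc
    have q0 : (0 : ℝ) ≤ q := hc.trans hq.le
    have q1 : (q : ℝ) ≤ 1 := hq'.le.trans hc'
    have h1 := h0 q (by exact_mod_cast q0) (by exact_mod_cast q1)
    have h2 := Helper40.EL.ic_mono (s := s) hc hq.le q1
    have h3 := Helper40.EL.ic_mono (s := s') q0 hq'.le hc'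
    linarith

/-- EXISTENCE OF ROBUST SYSTEMS: one system for `i(.)`, for the functionals `psi` of countably many gauges, and for
a further countable list of functionals -/
theorem exists_robustAll {C : ∀ S : Sp, Sys S m → Prop} (hC : DiagCl C) (him : ImCl C)
    (hne : ∃ (S : Sp) (s : Sys S m), C S s) (G : ℕ → Gg m) {M : ℝ} (hM : (m : ℝ) ≤ M) (hM1 : 1 ≤ M) (F : ℕ → Fn C M) :
    ∃ (S : Sp) (s : Sys S m), C S s ∧ RobustI s ∧ RobustG G s ∧ ∀ q, Rig (F q).f s := by
  classical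
  set F' : ({c : ℚ // 0 ≤ c ∧ c ≤ 1} ⊕ (ℕ × ℚ × ℚ)) ⊕ ℕ → Fn C M := fun q => match q with
    | Sum.inl (Sum.inl c) => fnI C hM (c.1 : ℝ) (by exact_mod_cast c.2.1) (by exact_mod_cast c.2.2)
    | Sum.inl (Sum.inr x) => fnP C hM1 (G x.1) (x.2.1 : ℝ) (x.2.2 : ℝ)
    | Sum.inr q => F q with hF'
  obtain ⟨S, s, hs, hr⟩ := exists_rig' hC him hne F'
  refine ⟨S, s, hs, ?_, ?_, fun q => hr (Sum.inr q)⟩
  · intro c h0 h1 T p E hE
    apply le_antisymm
    · exact ic_le_of_rat _ _ (fun q q0 q1 => (hr (Sum.inl (Sum.inl ⟨q, q0, q1⟩)) T p E hE).le) h0 h1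
    · exact ic_le_of_rat _ _ (fun q q0 q1 => (hr (Sum.inl (Sum.inl ⟨q, q0, q1⟩)) T p E hE).ge) h0 h1
  · intro i T p E hE c σ
    have key : ∀ c σ : ℚ, psi (G i) (s.im p E hE) c σ = psi (G i) s c σ := fun c σ =>
      hr (Sum.inl (Sum.inr (i, c, σ))) T p E hE
    exact le_antisymm (psi_le_of_rat _ _ (fun c σ => (key c σ).le) c σ)
      (psi_le_of_rat _ _ (fun c σ => (key c σ).ge) c σ)

end

end

end Pool.Agent.Helper52.KP
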