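import Pool.Agent.Helper52.KP.Dg

/-! Semicontinuity of double Markov labels of systems along diagonals (KAPPA (2.4)). -/

namespace Pool.Agent.Helper52.KP

open Finset Filter Topology Pool.Agent.Helper69.RK Pool.Agent.Helper31.EC Pool.Agent.Helper31.EC.Sp
open Pool.Agent.Helper40.EL

noncomputable section

/-- the line and the first `c n` digits of the height, in the finite entropy lattice -/
def PA {m : ℕ} (X : FSy m) (c : ℝ) : FL X.F := fc ((X.ka 1 ⊓ X.kx 1) ⊓ X.kt c)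

/-- the point and the height, in the finite entropy lattice -/
def PB {m : ℕ} (X : FSy m) : FL X.F := fc (X.kP 1 ⊓ X.kt 1)

section
variable {S : Sp} {m : ℕ} (s : Sys S m)

/-- `A_c = (xi, t_c)` -/
def pA (c : ℝ) : Part S := fun k => PA (s.fin k) c

/-- `B = (P(t), t)` -/
def pB : Part S := fun k => PB (s.fin k)

/-- `A_c` as a bounded information -/
def iA (c : ℝ) : S.Inf := Inf.sup (Inf.sup (s.Ia 1) (s.Ix 1)) (s.It c)

/-- `B` as a bounded information -/
def iB : S.Inf := Inf.sup (s.IP 1) (s.It 1)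

theorem fc_rt (A B : S.Inf) (k : ℕ) :
    h (fc (A.1 k) : FL (S.F k)) (fc (B.1 k)) / (S.F k).n = S.rt A.1 B.1 k := by
  rw [h_fc]
  rfl

theorem fc_rt_H (A : S.Inf) (k : ℕ) : H (fc (A.1 k) : FL (S.F k)) / (S.F k).n = S.rt A.1 S.tr k := by
  rw [← h_bot, ← fc_top, h_fc]
  rfl

theorem pA_eq (c : ℝ) (k : ℕ) : pA s c k = fc ((iA s c).1 k) := rfl

theorem pB_eq (k : ℕ) : pB s k = fc ((iB s).1 k) := rfl

theorem cl_iA (c : ℝ) : cl (iA s c) = s.xi 1 ⊔ s.t.dg c := by
  unfold iA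
  rw [cl_sup, cl_sup, s.cl_Ia, s.cl_Ix, s.cl_It]
  rfl

theorem cl_iB : cl (iB s) = s.P.dg 1 ⊔ s.T := by
  unfold iB
  rw [cl_sup, s.cl_IP, s.cl_It]
  rfl

theorem pA_Bd (c : ℝ) : (pA s c).Bd := by
  unfold Part.Bd
  have h1 : (fun k => H (pA s c k) / (S.F k).n) = S.rt (iA s c).1 S.tr := by
    funext k
    rw [pA_eq, fc_rt_H]
  rw [h1]
  exact (iA s c).ub

theorem pB_Bd : (pB s).Bd := by
  unfold Part.Bd
  have h1 : (fun k => H (pB s k) / (S.F k).n) = S.rt (iB s).1 S.tr := by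
    funext k
    rw [pB_eq, fc_rt_H]
  rw [h1]
  exact (iB s).ub

theorem pA_pA_UB (c c' : ℝ) : UB (fun k => h (pA s c' k) (pA s c k) / (S.F k).n) := by
  have h1 : (fun k => h (pA s c' k) (pA s c k) / (S.F k).n) = S.rt (iA s c').1 (iA s c).1 := by
    funext k
    rw [pA_eq, pA_eq, fc_rt]
  rw [h1]
  exact UB_rt _ _

/-- windows of different size differ by at most the difference of the sizes -/
theorem pA_pA (c c' : ℝ) : ul (fun k => h (pA s c' k) (pA s c k) / (S.F k).n) ≤ max (c' - c) 0 := by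
  have h1 : (fun k => h (pA s c' k) (pA s c k) / (S.F k).n) = S.rt (iA s c').1 (iA s c).1 := by
    funext k
    rw [pA_eq, pA_eq, fc_rt]
  rw [h1, ← h_cl, cl_iA, cl_iA]
  have h2 : h (s.xi 1 ⊔ s.t.dg c') (s.xi 1 ⊔ s.t.dg c) ≤ h (s.t.dg c') (s.t.dg c) := by
    calc h (s.xi 1 ⊔ s.t.dg c') (s.xi 1 ⊔ s.t.dg c)
        = h (s.t.dg c') (s.xi 1 ⊔ s.t.dg c) := by
          apply h_congr_left
          · exact sup_le (le_sup_left.trans le_sup_right) le_sup_left
          · exact le_sup_right.trans le_sup_left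
      _ ≤ h (s.t.dg c') (s.t.dg c) := h_anti le_sup_right
  refine h2.trans ?_
  rcases le_total c' c with hc | hc
  · rw [h_zero (s.t.dg_mono hc)]
    exact le_max_right _ _
  · have h3 := s.t.h_dg_dg hc
    simp only [Nat.cast_one, one_mul] at h3
    exact h3.trans (le_max_left _ _)

/-- monotonicity in the window -/
theorem DM_mono_c {l : Lab S} {c c' : ℝ} (hc : c ≤ c') (hl : l.DM (pA s c) (pB s)) : l.DM (pA s c') (pB s) := by
  apply hl.mono
  · refine (Nul_iff_ul (S := S) (f := fun k => h (pA s c k) (pA s c' k))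
      (Eventually.of_forall fun k => h_nonneg _ _)).mpr ⟨pA_pA_UB s c' c, ?_⟩
    have := pA_pA s c' c
    rwa [max_eq_right (by linarith)] at this
  · have h1 : (fun k => h (pB s k) (pB s k)) = fun _ => 0 := by
      funext k; exact h_self _
    rw [h1]; exact Nul_zero S

end

/-- SEMICONTINUITY: diagonals of systems together with countably many sequences of double Markov labels; the windows
`c q j` converge to `c' q` -/
theorem semi {m : ℕ} (S : ℕ → Sp) (s : ∀ j, Sys (S j) m) (c : ℕ → ℕ → ℝ) (c' : ℕ → ℝ)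
    (hc : ∀ q, Tendsto (c q) atTop (𝓝 (c' q))) (l : ∀ (_ : ℕ) (j : ℕ), Lab (S j))
    (hl : ∀ q j, (l q j).DM (pA (s j) (c q j)) (pB (s j))) (φ : ℕ → ℕ → ℕ → ℝ)
    (hφ : ∀ i j, UB (φ i j)) (E : ℕ → ℕ → ℕ → Prop) (hE : ∀ i j, ∀ᶠ k in UF, E i j k) :
    ∃ (J : ℕ → ℕ) (hn : Tendsto (fun k => ((S (J k)).F k).n) UF atTop) (u : Sys (dsp S J hn) m),
      Tendsto J UF atTop ∧
      (∀ i, Tendsto (fun k => φ i (J k) k - ul (φ i (J k))) UF (𝓝 0)) ∧
      (∀ i, ∀ᶠ k in UF, E i (J k) k) ∧ (∀ k, u.fin k = (s (J k)).fin k) ∧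
      (∀ q, (dlab (l q) J hn).DM (pA u (c' q)) (pB u)) ∧
      ∀ q, Tendsto (fun k => (l q (J k) k).info / ((S (J k)).F k).n - (l q (J k)).info) UF (𝓝 0) := by
  set φ' : ℕ → ℕ → ℕ → ℝ := fun i j k => if i % 2 = 0 then φ (i / 2) j k else (l (i / 2) j k).info / ((S j).F k).n
    with hφ'
  have hφb : ∀ i j, UB (φ' i j) := by
    intro i j
    rw [hφ']
    by_cases hi : i % 2 = 0
    · simp only [if_pos hi]
      exact hφ _ _
    · simp only [if_neg hi]
      exact (hl (i / 2) j).ub (pA_Bd _ _)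
  set E' : ℕ → ℕ → ℕ → Prop := fun i j k => E i j k ∧
    ((l i j k).leak (pA (s j) (c i j) k) / ((S j).F k).n ≤ 1 / ((j : ℝ) + 1) ∧
      (l i j k).leak (pB (s j) k) / ((S j).F k).n ≤ 1 / ((j : ℝ) + 1)) ∧
    h (pA (s j) (c i j) k) (pA (s j) (c' i) k) / ((S j).F k).n ≤ max (c i j - c' i) 0 + 1 / ((j : ℝ) + 1) with hE'
  have hEe : ∀ i j, ∀ᶠ k in UF, E' i j k := by
    intro i j
    have h5 : (0 : ℝ) < 1 / ((j : ℝ) + 1) := by positivity
    have h6 : ul (fun k => h (pA (s j) (c i j) k) (pA (s j) (c' i) k) / ((S j).F k).n) <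
        max (c i j - c' i) 0 + 1 / ((j : ℝ) + 1) := by
      have := pA_pA (s j) (c' i) (c i j)
      linarith
    filter_upwards [hE i j, leak_event (hl i j) _ h5, eventually_lt_of_ul_lt (pA_pA_UB (s j) _ _) h6] with k a b d
    exact ⟨a, b, d.le⟩
  obtain ⟨J, hn, u, hJ, hJ1, hJ2, hfin⟩ := diagG S s φ' hφb E' hEe
  have hpA : ∀ (b : ℝ) (k : ℕ), HEq (pA u b k) (pA (s (J k)) b k) := by
    intro b k
    show HEq (PA (u.fin k) b) (PA ((s (J k)).fin k) b)
    rw [hfin k]
  have hpA' : ∀ (b : ℝ) (k : ℕ), pA u b k = dpart (fun j => pA (s j) b) J hn k := fun b k => eq_of_heq (hpA b k)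
  have hpB' : ∀ (k : ℕ), pB u k = dpart (fun j => pB (s j)) J hn k := by
    intro k
    apply eq_of_heq
    show HEq (PB (u.fin k)) (PB ((s (J k)).fin k))
    rw [hfin k]
  refine ⟨J, hn, u, hJ, fun i => ?_, fun i => ?_, hfin, fun q => ?_, fun q => ?_⟩
  · have h1 := hJ1 (2 * i)
    rw [hφ'] at h1
    have e1 : (2 * i) % 2 = 0 := by omega
    have e2 : (2 * i) / 2 = i := by omega
    simp only [e1, e2, if_true] at h1
    exact h1
  · filter_upwards [hJ2 i] with k hk using hk.1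
  · apply dlab_DM (A := fun j => pA (s j) (c q j)) (B := fun j => pB (s j)) (fun j => 1 / ((j : ℝ) + 1))
      (tendsto_inv_J hJ)
    · filter_upwards [hJ2 q] with k hk using hk.2.1
    · have h3 : Tendsto (fun k => max (c q (J k) - c' q) 0 + 1 / ((J k : ℝ) + 1)) UF (𝓝 (max (c' q - c' q) 0 + 0)) := by
        apply Tendsto.add _ (tendsto_inv_J hJ)
        exact (((hc q).comp hJ).sub_const _).max tendsto_const_nhds
      rw [sub_self, max_self, add_zero] at h3
      refine tendsto_of_tendsto_of_tendsto_of_le_of_le' tendsto_const_nhds h3 ?_ ?_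
      · exact Eventually.of_forall fun k => div_nonneg (h_nonneg _ _) ((dsp S J hn).F k).pos.le
      · filter_upwards [hJ2 q] with k hk
        rw [hpA']
        exact hk.2.2
    · have h1 : (fun k => h (dpart (fun j => pB (s j)) J hn k) (pB u k)) = fun _ => 0 := by
        funext k
        rw [hpB']; exact h_self _
      rw [h1]; exact Nul_zero _
  · have h1 := hJ1 (2 * q + 1)
    rw [hφ'] at h1
    have e1 : ¬ (2 * q + 1) % 2 = 0 := by omega
    have e2 : (2 * q + 1) / 2 = q := by omega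
    simp only [e2, if_neg e1] at h1
    exact h1

end

end Pool.Agent.Helper52.KP
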